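import Pool.Agent.Lib.MP_deef39_co_Dsm.Main

/-! # First vertex arbitrary; two separated arms -/

set_option autoImplicit false

namespace FPW.Dsm

open FPW

variable {α : Type*} {p : α → ℝ × ℝ}

theorem si_sublist : ∀ {l N : List α}, N.Sublist l → SI p l → SI p N
  | _, _, .slnil, _ => trivial
  | _, _, .cons _ h, hs => si_sublist h hs.2
  | _, _, .cons_cons _ h, hs => ⟨sp_perm (fun _ ht => h.subset ht) hs.1, si_sublist h hs.2⟩

theorem cr_sub (r a b c : ℝ × ℝ) : cr r a b = cr r c b - cr r c a := by unfold cr; ring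

theorem cr_dot_pos {a b : ℝ × ℝ} (h : a ≠ b) : 0 < cr (b.2 - a.2, -(b.1 - a.1)) a b := by
  unfold cr
  have hne : b.1 ≠ a.1 ∨ b.2 ≠ a.2 := by
    by_contra hcon
    push Not at hcon
    exact h (Prod.ext hcon.1.symm hcon.2.symm)
  rcases hne with h3 | h3
  · have : 0 < (b.1 - a.1) * (b.1 - a.1) := mul_self_pos.2 (sub_ne_zero.2 h3)
    nlinarith [mul_self_nonneg (b.2 - a.2)]
  · have : 0 < (b.2 - a.2) * (b.2 - a.2) := mul_self_pos.2 (sub_ne_zero.2 h3)
    nlinarith [mul_self_nonneg (b.1 - a.1)]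

theorem first [Finite α] (hgp : GP p) {x a : α} {C : List α} (hn : (x :: a :: C).Nodup)
    (hfr : Fr p (x :: a :: C)) : ∃ q : List α, q.Perm (x :: a :: C) ∧ Plane p (Ed q) ∧ SI p q ∧
      Relation.ReflTransGen (U p) (x :: a :: C) q := by
  classical
  by_cases hx : Sp p x (a :: C)
  · exact ⟨_, List.Perm.refl _, plane_of_fr _ hfr, ⟨hx, si_of_fr _ _ hfr⟩,
      Relation.ReflTransGen.refl⟩
  have hxn := (List.nodup_cons.1 hn).1
  have hn' := (List.nodup_cons.1 hn).2
  have hxa : x ≠ a := fun h => hxn (by rw [h]; exact List.mem_cons_self)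
  cases C with
  | nil =>
    exact absurd ⟨_, fun t ht => by
      rw [List.mem_singleton.1 ht]
      exact cr_dot_pos (fun h => hxa (hgp.inj h))⟩ hx
  | cons c C =>
  obtain ⟨r, hr⟩ := hfr.2.1
  obtain ⟨a', ha'C, hmax⟩ := Set.exists_max_image {t | t ∈ c :: C}
    (fun t => cr r (p a) (p t)) (Set.toFinite _) ⟨c, List.mem_cons_self⟩
  have ha'C' : a' ∈ c :: C := ha'C
  have hfa' : 0 < cr r (p a) (p a') := hr a' ha'C'
  have haa' : a ≠ a' := fun h => (List.nodup_cons.1 hn').1 (h ▸ ha'C')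
  have hf0 : ∀ t ∈ a :: c :: C, 0 ≤ cr r (p a) (p t) := by
    intro t ht
    rcases List.mem_cons.1 ht with rfl | ht
    · rw [cr_self]
    · exact (hr t ht).le
  obtain ⟨r', hr'⟩ : Sp p a' ((a :: c :: C).filter (fun t => decide (t ≠ a'))) := by
    refine sp_of_aff hgp (F := fun t => -1 * cr r (p a) (p t) + 1 * cr r (p a) (p a'))
      (aff_comb (aff_cr r (p a)) ⟨0, 0, cr r (p a) (p a'), fun t => by ring⟩ (-1) 1) (by ring)
      (by simp) ?_ (w := a) ?_
    · intro t ht
      have ht' : t ∈ a :: c :: C := List.mem_of_mem_filter ht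
      rcases List.mem_cons.1 ht' with rfl | ht'
      · rw [cr_self]; linarith
      · have := hmax t ht'
        linarith
    · rw [cr_self]
      intro h0
      linarith
  have hr'' : ∀ t ∈ a :: c :: C, t ≠ a' → 0 < cr r' (p a') (p t) := by
    intro t ht hta
    exact hr' t (List.mem_filter.2 ⟨ht, by simpa using hta⟩)
  have hg0 : ∀ t ∈ a :: c :: C, 0 ≤ cr r' (p a') (p t) := by
    intro t ht
    by_cases h : t = a'
    · rw [h, cr_self]
    · exact (hr'' t ht h).le
  have hfx : 0 < cr r (p a) (p x) := by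
    by_contra hcon
    apply hx
    rcases lt_or_eq_of_le (not_lt.1 hcon) with h1 | h1
    · refine ⟨r, fun t ht => ?_⟩
      rw [cr_sub r (p x) (p t) (p a)]
      have := hf0 t ht
      linarith
    · exact sp_of_aff hgp (F := fun t => cr r (p a) (p t)) (aff_cr r (p a)) h1 hxn hf0
        (w := a') hfa'.ne'
  have hgx : 0 < cr r' (p a') (p x) := by
    by_contra hcon
    apply hx
    rcases lt_or_eq_of_le (not_lt.1 hcon) with h1 | h1
    · refine ⟨r', fun t ht => ?_⟩
      rw [cr_sub r' (p x) (p t) (p a')]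
      have := hg0 t ht
      linarith
    · exact sp_of_aff hgp (F := fun t => cr r' (p a') (p t)) (aff_cr r' (p a')) h1 hxn hg0
        (w := a) (hr'' a List.mem_cons_self haa').ne'
  have hxa' : x ≠ a' := fun h => hxn (h ▸ List.mem_cons_of_mem _ ha'C')
  obtain ⟨M, m1, m2, m3, m4⟩ := sort2 hgp hn (a := a) (a' := a')
    (List.mem_cons_of_mem _ List.mem_cons_self)
    (List.mem_cons_of_mem _ (List.mem_cons_of_mem _ ha'C')) haa' (r := r) (r' := r')
    (by
      intro t ht hta
      rcases List.mem_cons.1 ht with rfl | ht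
      · exact hfx
      · exact hr t ((List.mem_cons.1 ht).resolve_left hta))
    (by
      intro t ht hta
      rcases List.mem_cons.1 ht with rfl | ht
      · exact hgx
      · exact hr'' t ht hta)
  have hxM : x ∈ M := by
    have h1 := m1.mem_iff.2 (List.mem_cons_self (a := x) (l := a :: c :: C))
    rcases List.mem_cons.1 h1 with h2 | h2
    · exact absurd h2 hxa
    · rcases List.mem_append.1 h2 with h3 | h3
      · exact h3
      · exact absurd (List.mem_singleton.1 h3) hxa'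
  obtain ⟨M₁, M₂, rfl⟩ := List.append_of_mem hxM
  have hsub : (a :: (M₁ ++ (M₂ ++ [a']))).Sublist (a :: ((M₁ ++ x :: M₂) ++ [a'])) := by
    rw [List.append_assoc]
    exact List.Sublist.cons_cons a (List.Sublist.append (List.Sublist.refl _)
      (List.sublist_cons_self _ _))
  have hpermN : (M₁ ++ (M₂ ++ [a'])).Perm (c :: C) := by
    have h1 : (a :: ((M₁ ++ x :: M₂) ++ [a'])).Perm (a :: x :: (M₁ ++ (M₂ ++ [a']))) := by
      refine List.Perm.cons a ?_
      rw [List.append_assoc, List.cons_append]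
      exact List.perm_middle
    have h2 := (h1.symm.trans m1).trans (List.Perm.swap a x (c :: C))
    exact (List.perm_cons x).1 ((List.perm_cons a).1 h2)
  have hfree := fr_free hfr.1
  have s1 : Reach p NO (x :: a :: c :: C) (x :: a :: (M₁ ++ (M₂ ++ [a']))) :=
    reach_cons hfree (kkr hgp _ a (c :: C) _ rfl hn' hpermN (plane_of_fr _ hfr.2.2)
      (m2 _ hsub) (si_of_fr _ _ hfr) (si_sublist hsub m3))
  have hrev : (a :: ((M₁ ++ x :: M₂) ++ [a'])).reverse =
      (M₂ ++ [a']).reverse ++ (x :: (M₁.reverse ++ [a])) := by simp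
  have hnQ := m1.symm.nodup hn
  have hd0 : Dis [a] [a] := ⟨[], Or.inl rfl, rfl⟩
  have hd1 : Dis (x :: (M₁.reverse ++ [a])) (x :: ([a] ++ M₁)) :=
    ⟨[a] ++ M₁, Or.inl rfl, dis_append hd0 M₁⟩
  have hd : Dis ((M₂ ++ [a']).reverse ++ (x :: (M₁.reverse ++ [a])))
      (x :: ([a] ++ M₁) ++ (M₂ ++ [a'])) := dis_append hd1 (M₂ ++ [a'])
  have hplQ := plane_rev (m2 _ (List.Sublist.refl _))
  have hsiQ : SI p (a :: ((M₁ ++ x :: M₂) ++ [a'])).reverse := by
    have h1 : (a :: ((M₁ ++ x :: M₂) ++ [a'])).reverse =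
        a' :: ((M₁ ++ x :: M₂).reverse ++ [a]) := by simp
    rw [h1]
    exact m4
  refine ⟨(a :: ((M₁ ++ x :: M₂) ++ [a'])).reverse, (List.reverse_perm _).trans m1, hplQ, hsiQ,
    (reach_u s1).trans ?_⟩
  rw [hrev] at hplQ hsiQ ⊢
  have hfrQ := fr_of_si hgp _ (by
    rw [← hrev]
    exact List.nodup_reverse.2 hnQ) hplQ hsiQ
  exact u_dis hfrQ (by simpa using hd)

/-- lifting rotations of an arm across a separating line -/
theorem rot_pre {h : α} {A₀ B L' : List α}
    (hf : ∀ c d, Ed (A₀ ++ [h]) c d → ∀ z ∈ h :: B, ∀ v ∈ h :: B, ¬ X p z v c d)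
    (hr : Rot p NO (h :: B) L') : Rot p NO (A₀ ++ h :: B) (A₀ ++ L') := by
  obtain ⟨v, z, ⟨A, B', h1, h2⟩, hv⟩ := hr
  refine ⟨v, z, ⟨A₀ ++ A, B', by rw [h1, List.append_assoc], by rw [h2, List.append_assoc]⟩, ?_⟩
  have hzm : z ∈ h :: B := by rw [h1]; simp
  have hvm : v ∈ h :: B := by rw [h1]; simp
  intro c d hcd hX
  rcases ed_mid.1 (eo_no.1 hcd) with h3 | h3
  · exact hf c d h3 z hzm v hvm hX
  · exact hv c d (eo_no.2 h3) hX

theorem reach_pre {h : α} {A₀ B L' : List α}
    (hf : ∀ c d, Ed (A₀ ++ [h]) c d → ∀ z ∈ h :: B, ∀ v ∈ h :: B, ¬ X p z v c d)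
    (hr : Reach p NO (h :: B) L') : Reach p NO (A₀ ++ h :: B) (A₀ ++ L') := by
  induction hr with
  | refl => exact Relation.ReflTransGen.refl
  | @tail L₁ L₂ h1 h2 ih =>
    refine ih.tail ?_
    have hh := reach_head h1
    have hperm := reach_perm h1
    cases L₁ with
    | nil => simp at hh
    | cons b C₁ =>
      have hb : b = h := by simpa using hh
      subst hb
      exact rot_pre (fun c d hcd z hz v hv => hf c d hcd z (hperm.mem_iff.1 hz) v
        (hperm.mem_iff.1 hv)) h2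

/-- an arm beyond a line through `h` is replaced by the arm sorted by the distance from the line -/
theorem arm_sort [Finite α] (hgp : GP p) {h : α} {A₀ B B' q : List α} (hn : (h :: B).Nodup)
    {r : ℝ × ℝ} (hA : ∀ t ∈ A₀, cr r (p h) (p t) < 0) (hB : ∀ t ∈ B, 0 < cr r (p h) (p t))
    (hqp' : q.Perm B) (hplq : Plane p (Ed (h :: q))) (hsiq : SI p q)
    (hrq : Reach p NO (h :: B) (h :: q)) (hB' : B'.Perm B)
    (hs : B'.Pairwise (fun x y => cr r (p h) (p x) ≤ cr r (p h) (p y))) :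
    Reach p NO (A₀ ++ h :: B) (A₀ ++ h :: B') := by
  cases B with
  | nil =>
    rw [List.perm_nil.1 hB']
    exact Relation.ReflTransGen.refl
  | cons b B =>
  have hqp : (b :: B).Perm q := hqp'.symm
  have hS : Sw p (h :: B') (fun t => cr r (p h) (p t)) (fun _ => 1) := by
    refine ⟨aff_cr _ _, ⟨0, 0, 1, fun t => by ring⟩, fun _ _ => one_pos, h, List.mem_cons_self, b,
      List.mem_cons_of_mem _ (hB'.mem_iff.2 List.mem_cons_self), ?_⟩
    have := hB b List.mem_cons_self
    rw [cr_self, zero_div, div_one]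
    exact this.ne
  have hnq : (h :: q).Nodup := (hqp.cons h).nodup hn
  have hnB' : (h :: B').Nodup := (hB'.symm.cons h).nodup hn
  have hs' : (h :: B').Pairwise (fun x y => cr r (p h) (p x) / (fun _ => (1 : ℝ)) x ≤
      cr r (p h) (p y) / (fun _ => (1 : ℝ)) y) := by
    refine List.pairwise_cons.2 ⟨fun t ht => ?_, hs.imp (fun hxy => ?_)⟩
    · simp only [cr_self, div_one]
      exact (hB t (hB'.mem_iff.1 ht)).le
    · simpa only [div_one] using hxy
  have hpl := plane_sw hgp hS (h :: B') (fun _ ht => ht) hnB' hs'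
  have hsi := si_sw hgp hS (h :: B') (fun _ ht => ht) hnB' hs'
  refine reach_pre ?_ (hrq.trans (kkr hgp _ h q B' rfl hnq
    (hB'.trans hqp) hplq hpl ⟨⟨r, fun t ht => hB t (hqp.mem_iff.2 ht)⟩, hsiq⟩ hsi))
  intro c d hcd z hz v hv hX
  have hle : ∀ t ∈ A₀ ++ [h], cr r (p h) (p t) ≤ 0 := by
    intro t ht
    rcases List.mem_append.1 ht with ht | ht
    · exact (hA t ht).le
    · rw [List.mem_singleton.1 ht, cr_self]
  have hge : ∀ t ∈ h :: b :: B, 0 ≤ cr r (p h) (p t) := by
    intro t ht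
    rcases List.mem_cons.1 ht with rfl | ht
    · rw [cr_self]
    · exact (hB t ht).le
  obtain ⟨_, _, k3, k4⟩ := sepX (aff_cr r (p h)) (X_comm.1 hX) (hle c (ed_mem hcd))
    (hle d (ed_mem' hcd)) (hge z hz) (hge v hv)
  have h0 : ∀ t ∈ h :: b :: B, cr r (p h) (p t) = 0 → t = h := by
    intro t ht h0
    rcases List.mem_cons.1 ht with h1 | h1
    · exact h1
    · have := hB t h1
      rw [h0] at this
      exact absurd this (lt_irrefl _)
  exact (X_ne hX).1 ((h0 z hz k3).trans (h0 v hv k4).symm)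

/-- the arm `B` at `h` can be made separated by rotations which fix `h` -/
def Mov (p : α → ℝ × ℝ) (h : α) (B : List α) : Prop :=
  ∃ q : List α, q.Perm B ∧ Plane p (Ed (h :: q)) ∧ SI p q ∧ Reach p NO (h :: B) (h :: q)

/-- two arms at `h`, separated by a line through `h` -/
theorem two_arm [Finite α] (hgp : GP p) {h : α} {A B : List α}
    (hn : (A.reverse ++ h :: B).Nodup) {r : ℝ × ℝ} (hA : ∀ t ∈ A, cr r (p h) (p t) < 0)
    (hB : ∀ t ∈ B, 0 < cr r (p h) (p t)) (hAne : A ≠ []) (hmA : Mov p h A) (hmB : Mov p h B) :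
    ∃ q : List α, q.Perm (A.reverse ++ h :: B) ∧ Plane p (Ed q) ∧ SI p q ∧
      Relation.ReflTransGen (U p) (A.reverse ++ h :: B) q := by
  classical
  obtain ⟨qA, a1, a2, a3, a4⟩ := hmA
  obtain ⟨qB, b1, b2, b3, b4⟩ := hmB
  have tot : ∀ ρ : ℝ × ℝ, ∀ L : List α, ∃ L' : List α, L'.Perm L ∧
      L'.Pairwise (fun x y => cr ρ (p h) (p x) ≤ cr ρ (p h) (p y)) := by
    intro ρ L
    have : Std.Total (fun x y : α => cr ρ (p h) (p x) ≤ cr ρ (p h) (p y)) :=
      ⟨fun x y => le_total _ _⟩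
    have : IsTrans α (fun x y => cr ρ (p h) (p x) ≤ cr ρ (p h) (p y)) := ⟨fun x y z => le_trans⟩
    exact ⟨_, List.perm_insertionSort _ L, List.pairwise_insertionSort _ _⟩
  obtain ⟨B', hB'p, hB's⟩ := tot r B
  obtain ⟨A', hA'p, hA's⟩ := tot r A
  have hneg : ∀ t, cr (-r.1, -r.2) (p h) (p t) = - cr r (p h) (p t) := fun t => by
    unfold cr; ring
  have hnB : (h :: B).Nodup := (List.nodup_append.1 hn).2.1
  have hnA : (h :: A).Nodup := by
    have h1 : (A.reverse ++ h :: B).reverse = B.reverse ++ h :: A := by simp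
    have h2 := List.nodup_reverse.2 hn
    rw [h1] at h2
    exact (List.nodup_append.1 h2).2.1
  have s1 : Reach p NO (A.reverse ++ h :: B) (A.reverse ++ h :: B') :=
    arm_sort hgp hnB (A₀ := A.reverse) (fun t ht => hA t (List.mem_reverse.1 ht)) hB b1 b2 b3 b4
      hB'p hB's
  have s2 : U p (A.reverse ++ h :: B') (B'.reverse ++ h :: A) := Or.inr (by simp)
  have s3 : Reach p NO (B'.reverse ++ h :: A) (B'.reverse ++ h :: A'.reverse) := by
    refine arm_sort hgp hnA (A₀ := B'.reverse) (r := (-r.1, -r.2)) (fun t ht => ?_)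
      (fun t ht => ?_) a1 a2 a3 a4 ((List.reverse_perm _).trans hA'p) ?_
    · rw [hneg]
      have := hB t (hB'p.mem_iff.1 (List.mem_reverse.1 ht))
      linarith
    · rw [hneg]
      have := hA t ht
      linarith
    · rw [List.pairwise_reverse]
      refine hA's.imp (fun hxy => ?_)
      rw [hneg, hneg]
      linarith
  have s4 : U p (B'.reverse ++ h :: A'.reverse) (A' ++ h :: B') := Or.inr (by simp)
  have hperm : (A' ++ h :: B').Perm (A.reverse ++ h :: B) :=
    List.Perm.append (hA'p.trans (List.reverse_perm A).symm) (hB'p.cons h)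
  have hnQ : (A' ++ h :: B').Nodup := hperm.symm.nodup hn
  obtain ⟨a, ha⟩ := List.exists_mem_of_ne_nil _ hAne
  have hS : Sw p (A' ++ h :: B') (fun t => cr r (p h) (p t)) (fun _ => 1) := by
    refine ⟨aff_cr _ _, ⟨0, 0, 1, fun t => by ring⟩, fun _ _ => one_pos, a,
      List.mem_append_left _ (hA'p.mem_iff.2 ha), h, by simp, ?_⟩
    have := hA a ha
    rw [cr_self, zero_div, div_one]
    exact this.ne
  have hsQ : (A' ++ h :: B').Pairwise (fun x y => cr r (p h) (p x) / (fun _ => (1 : ℝ)) x ≤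
      cr r (p h) (p y) / (fun _ => (1 : ℝ)) y) := by
    simp only [div_one]
    refine List.pairwise_append.2 ⟨hA's, List.pairwise_cons.2 ⟨fun t ht => ?_, hB's⟩, ?_⟩
    · rw [cr_self]
      exact (hB t (hB'p.mem_iff.1 ht)).le
    · intro x hx y hy
      have h1 := hA x (hA'p.mem_iff.1 hx)
      rcases List.mem_cons.1 hy with rfl | hy
      · rw [cr_self]; exact h1.le
      · exact h1.le.trans (hB y (hB'p.mem_iff.1 hy)).le
  exact ⟨A' ++ h :: B', hperm, plane_sw hgp hS _ (fun _ ht => ht) hnQ hsQ,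
    si_sw hgp hS _ (fun _ ht => ht) hnQ hsQ,
    (((reach_u s1).tail s2).trans (reach_u s3)).tail s4⟩

end FPW.Dsm
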