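import Pool.Agent.Lib.MP_deef39_co_PW.Final

/-! # Dismantlable plane spanning paths: basic lemmas

`Sp p x L` : a line through `x` has all points of `L` strictly on one side. `SI p l` : every entry
of `l` is strictly separated from the later ones. `Dis q l` : the path `l` is dismantled by
removing end vertices in the order `q`.
-/

set_option autoImplicit false

namespace FPW.Dsm

open FPW

variable {α : Type*} {p : α → ℝ × ℝ}

/-- affine function of the points -/
def Aff (p : α → ℝ × ℝ) (F : α → ℝ) : Prop :=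
  ∃ A B C : ℝ, ∀ t, F t = A * (p t).1 + B * (p t).2 + C

/-- strict separation of `x` from the entries of `L` by a line through `x` -/
def Sp (p : α → ℝ × ℝ) (x : α) (L : List α) : Prop :=
  ∃ r : ℝ × ℝ, ∀ t ∈ L, 0 < cr r (p x) (p t)

/-- every entry is separated from the later ones -/
def SI (p : α → ℝ × ℝ) : List α → Prop
  | [] => True
  | x :: L => Sp p x L ∧ SI p L

/-- `l` is dismantled by removing end vertices in the order `q` -/
def Dis : List α → List α → Prop
  | [], l => l = []
  | x :: q, l => ∃ m, (l = x :: m ∨ l = m ++ [x]) ∧ Dis q m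

theorem aff_cr (r a : ℝ × ℝ) : Aff p (fun t => cr r a (p t)) :=
  ⟨-r.2, r.1, r.2 * a.1 - r.1 * a.2, fun t => by unfold cr; ring⟩

theorem cr_self (r a : ℝ × ℝ) : cr r a a = 0 := by unfold cr; ring

theorem aff_four {F : α → ℝ} (h : Aff p F) (s a c d : α) :
    o p s a c * F d - o p s a d * F c = o p c d a * F s - o p c d s * F a := by
  obtain ⟨A, B, C, h⟩ := h
  rw [h, h, h, h]
  unfold o
  ring

theorem aff_bary {F : α → ℝ} (h : Aff p F) (a b c t : α) :
    o p a b c * F t = o p b c t * F a + o p c a t * F b + o p a b t * F c := by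
  obtain ⟨A, B, C, h⟩ := h
  rw [h, h, h, h]
  unfold o
  ring

theorem aff_comb {F G : α → ℝ} (hF : Aff p F) (hG : Aff p G) (a b : ℝ) :
    Aff p (fun t => a * F t + b * G t) := by
  obtain ⟨A, B, C, h⟩ := hF
  obtain ⟨A', B', C', h'⟩ := hG
  exact ⟨a * A + b * A', a * B + b * B', a * C + b * C', fun t => by
    show a * F t + b * G t = _
    rw [h, h']
    ring⟩

/-- the crossing point of two crossing segments, evaluated by affine functions -/
theorem X_pt {a b c d : α} (hX : X p a b c d) :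
    ∃ t τ : ℝ, 0 < t ∧ t < 1 ∧ 0 < τ ∧ τ < 1 ∧
      ∀ F : α → ℝ, Aff p F → (1 - t) * F a + t * F b = (1 - τ) * F c + τ * F d := by
  obtain ⟨t, τ, h1, h2, h3, h4, h5⟩ := X_param hX
  refine ⟨t, τ, h1, h2, h3, h4, fun F h => ?_⟩
  have e1 := h5 c d
  have e2 := h5 a b
  have z1 : o p c d c = 0 := by unfold o; ring
  have z2 : o p c d d = 0 := by unfold o; ring
  have z3 : o p a b a = 0 := by unfold o; ring
  have z4 : o p a b b = 0 := by unfold o; ring
  have hD : o p a b c - o p a b d ≠ 0 := by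
    intro h0
    have h6 : o p a b c = o p a b d := by linarith
    have h7 := hX.1
    rw [h6] at h7
    nlinarith [mul_self_nonneg (o p a b d)]
  have e3 := aff_four h a b c d
  rw [z1, z2] at e1
  rw [z3, z4] at e2
  have e4 : o p a b c - o p a b d = -(o p c d a - o p c d b) := by unfold o; ring
  have e5 : t * (o p c d a - o p c d b) = o p c d a := by linarith
  have e6 : τ * (o p a b c - o p a b d) = o p a b c := by linarith
  have e7 : (o p a b c - o p a b d) * ((1 - t) * F a + t * F b - ((1 - τ) * F c + τ * F d)) = 0 := by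
    have e8 : (o p a b c - o p a b d) * ((1 - t) * F a + t * F b) =
        -(o p c d a - o p c d b) * F a + (t * (o p c d a - o p c d b)) * (F a - F b) := by
      rw [e4]; ring
    have e9 : (o p a b c - o p a b d) * ((1 - τ) * F c + τ * F d) =
        (o p a b c - o p a b d) * F c - (τ * (o p a b c - o p a b d)) * (F c - F d) := by
      ring
    rw [mul_sub, e8, e9, e5, e6]
    linarith
  rcases mul_eq_zero.1 e7 with h8 | h8
  · exact absurd h8 hD
  · linarith

theorem sepX {F : α → ℝ} (h : Aff p F) {a b c d : α} (hX : X p a b c d)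
    (ha : F a ≤ 0) (hb : F b ≤ 0) (hc : 0 ≤ F c) (hd : 0 ≤ F d) :
    F a = 0 ∧ F b = 0 ∧ F c = 0 ∧ F d = 0 := by
  obtain ⟨t, τ, h1, h2, h3, h4, h5'⟩ := X_pt hX
  have h5 := h5' F h
  have k1 : (1 - t) * F a ≤ 0 := mul_nonpos_of_nonneg_of_nonpos (by linarith) ha
  have k2 : t * F b ≤ 0 := mul_nonpos_of_nonneg_of_nonpos h1.le hb
  have k3 : 0 ≤ (1 - τ) * F c := mul_nonneg (by linarith) hc
  have k4 : 0 ≤ τ * F d := mul_nonneg h3.le hd
  have m1 : (1 - t) * F a = 0 := by linarith
  have m2 : t * F b = 0 := by linarith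
  have m3 : (1 - τ) * F c = 0 := by linarith
  have m4 : τ * F d = 0 := by linarith
  refine ⟨?_, ?_, ?_, ?_⟩
  · rcases mul_eq_zero.1 m1 with h6 | h6
    · linarith
    · exact h6
  · rcases mul_eq_zero.1 m2 with h6 | h6
    · linarith
    · exact h6
  · rcases mul_eq_zero.1 m3 with h6 | h6
    · linarith
    · exact h6
  · rcases mul_eq_zero.1 m4 with h6 | h6
    · linarith
    · exact h6

/-- discrete intermediate value theorem along a list -/
theorem ivt {φ : α → ℝ} : ∀ (C : List α), (∀ t ∈ C, φ t ≠ 0) → ∀ z ∈ C, ∀ v ∈ C, 0 < φ z →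
    φ v < 0 → ∃ c d, Ed C c d ∧ 0 < φ c ∧ φ d < 0
  | [], _, z, hz, _, _, _, _ => absurd hz List.not_mem_nil
  | [x], _, z, hz, v, hv, h1, h2 => by
    rw [List.mem_singleton] at hz hv
    subst hz
    subst hv
    linarith
  | x :: y :: C, h0, z, hz, v, hv, h1, h2 => by
    have ih := ivt (φ := φ) (y :: C) (fun t ht => h0 t (List.mem_cons_of_mem _ ht))
    have hy0 := h0 y (List.mem_cons_of_mem _ List.mem_cons_self)
    have lift : (∃ c d, Ed (y :: C) c d ∧ 0 < φ c ∧ φ d < 0) →
        ∃ c d, Ed (x :: y :: C) c d ∧ 0 < φ c ∧ φ d < 0 := by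
      rintro ⟨c, d, k1, k2, k3⟩
      exact ⟨c, d, ed_cons2.2 (Or.inr (Or.inr k1)), k2, k3⟩
    rcases List.mem_cons.1 hz with hz' | hz'
    · subst hz'
      rcases List.mem_cons.1 hv with hv' | hv'
      · subst hv'; linarith
      · rcases lt_or_gt_of_ne hy0 with h3 | h3
        · exact ⟨z, y, ed_cons2.2 (Or.inl ⟨rfl, rfl⟩), h1, h3⟩
        · exact lift (ih y List.mem_cons_self v hv' h3 h2)
    · rcases List.mem_cons.1 hv with hv' | hv'
      · subst hv'
        rcases lt_or_gt_of_ne hy0 with h3 | h3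
        · exact lift (ih z hz' y List.mem_cons_self h1 h3)
        · exact ⟨y, v, ed_cons2.2 (Or.inr (Or.inl ⟨rfl, rfl⟩)), h3, h2⟩
      · exact lift (ih z hz' v hv' h1 h2)

/-- the first edge of a plane path whose first two vertices are separated from the later ones is
not crossed by a segment between later vertices -/
theorem free (hgp : GP p) {s a : α} {C : List α} (hn : (s :: a :: C).Nodup)
    (hp : Plane p (Ed (s :: a :: C))) (ha : Sp p a C) (hs : Sp p s (a :: C)) {z v : α}
    (hz : z ∈ a :: C) (hv : v ∈ a :: C) : ¬ X p z v s a := by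
  obtain ⟨r, hr⟩ := ha
  obtain ⟨r', hr'⟩ := hs
  have hsn := (List.nodup_cons.1 hn).1
  have han := (List.nodup_cons.1 (List.nodup_cons.1 hn).2).1
  have hsa : s ≠ a := fun h => hsn (by rw [h]; exact List.mem_cons_self)
  have hsC : ∀ t ∈ C, s ≠ t := fun t ht h => hsn (by rw [h]; exact List.mem_cons_of_mem _ ht)
  have haC : ∀ t ∈ C, a ≠ t := fun t ht h => han (by rw [h]; exact ht)
  have hFa : Aff p (fun t => cr r (p a) (p t)) := aff_cr r (p a)
  have hFs : Aff p (fun t => cr r' (p s) (p t)) := aff_cr r' (p s)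
  have key : ∀ c ∈ C, ∀ d ∈ C, 0 < o p s a c → o p s a d < 0 →
      o p c d s < 0 ∧ 0 < o p c d a * cr r (p a) (p s) := by
    intro c hc d hd h1 h2
    have e1 := aff_four hFs s a c d
    have e2 := aff_four hFa s a c d
    simp only [cr_self, mul_zero] at e1 e2
    have k1 : 0 < cr r' (p s) (p c) := hr' c (List.mem_cons_of_mem _ hc)
    have k2 : 0 < cr r' (p s) (p d) := hr' d (List.mem_cons_of_mem _ hd)
    have k3 : 0 < cr r' (p s) (p a) := hr' a List.mem_cons_self
    have k4 : 0 < cr r (p a) (p c) := hr c hc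
    have k5 : 0 < cr r (p a) (p d) := hr d hd
    have m1 := mul_pos h1 k2
    have m2 := mul_neg_of_neg_of_pos h2 k1
    have m3 := mul_pos h1 k5
    have m4 := mul_neg_of_neg_of_pos h2 k4
    constructor
    · by_contra h3
      have m5 := mul_nonneg (not_lt.1 h3) k3.le
      linarith
    · linarith
  have main : ∀ z ∈ C, ∀ v ∈ C, 0 < o p s a z → o p s a v < 0 → ¬ X p z v s a := by
    intro z hz v hv h1 h2 hX
    obtain ⟨k1, k2⟩ := key z hz v hv h1 h2
    have k3 : 0 < o p z v a := by
      have h3 := hX.1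
      by_contra h4
      have := mul_nonneg_of_nonpos_of_nonpos k1.le (not_lt.1 h4)
      linarith
    have k4 : 0 < cr r (p a) (p s) := by
      by_contra h4
      have := mul_nonpos_of_nonneg_of_nonpos k3.le (not_lt.1 h4)
      linarith
    obtain ⟨c, d, hcd, h5, h6⟩ := ivt (φ := fun t => o p s a t) C
      (fun t ht => hgp.ne s a t hsa (haC t ht) (hsC t ht)) z hz v hv h1 h2
    have hc := ed_mem hcd
    have hd := ed_mem' hcd
    obtain ⟨m1, m2⟩ := key c hc d hd h5 h6
    have m3 : 0 < o p c d a := by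
      by_contra h7
      have := mul_nonpos_of_nonpos_of_nonneg (not_lt.1 h7) k4.le
      linarith
    refine hp c d s a ?_ (ed_cons2.2 (Or.inl ⟨rfl, rfl⟩)) ⟨mul_neg_of_neg_of_pos m1 m3,
      mul_neg_of_pos_of_neg h5 h6⟩
    refine ed_cons2.2 (Or.inr (Or.inr ?_))
    cases C with
    | nil => exact hcd.elim
    | cons x C => exact ed_cons2.2 (Or.inr (Or.inr hcd))
  intro hX
  obtain ⟨_, _, h3, h4, h5, h6⟩ := X_ne hX
  have hz' : z ∈ C := (List.mem_cons.1 hz).resolve_left h4
  have hv' : v ∈ C := (List.mem_cons.1 hv).resolve_left h6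
  have h7 := hX.2
  rcases mul_neg_iff.1 h7 with ⟨h8, h9⟩ | ⟨h8, h9⟩
  · exact main z hz' v hv' h8 h9 hX
  · exact main v hv' z hz' h9 h8 (X_sw1.1 hX)

theorem sp_perm {x : α} {L L' : List α} (h : ∀ t ∈ L', t ∈ L) (hs : Sp p x L) : Sp p x L' := by
  obtain ⟨r, hr⟩ := hs
  exact ⟨r, fun t ht => hr t (h t ht)⟩

/-- a rotation of `L = a :: C` is a rotation of `s :: L` if the edge `s a` is not crossed by
segments between points of `L` -/
theorem rot_cons {s a : α} {C L' : List α}
    (hf : ∀ z ∈ a :: C, ∀ v ∈ a :: C, ¬ X p z v s a) (h : Rot p NO (a :: C) L') :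
    Rot p NO (s :: a :: C) (s :: L') := by
  obtain ⟨v, z, ⟨A, B, h1, h2⟩, hv⟩ := h
  refine ⟨v, z, ⟨s :: A, B, by rw [h1]; rfl, by rw [h2]; rfl⟩, ?_⟩
  have hzm : z ∈ a :: C := by rw [h1]; simp
  have hvm : v ∈ a :: C := by rw [h1]; simp
  intro c d hcd hX
  rcases eo_no.1 hcd with ⟨rfl, rfl⟩ | ⟨rfl, rfl⟩ | hcd
  · exact hf z hzm v hvm hX
  · exact hf z hzm v hvm (X_sw2.1 hX)
  · exact hv c d (eo_no.2 hcd) hX

theorem reach_cons {s a : α} {C L' : List α}
    (hf : ∀ z ∈ a :: C, ∀ v ∈ a :: C, ¬ X p z v s a) (h : Reach p NO (a :: C) L') :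
    Reach p NO (s :: a :: C) (s :: L') := by
  induction h with
  | refl => exact Relation.ReflTransGen.refl
  | @tail L₁ L₂ h1 h2 ih =>
    refine ih.tail ?_
    have hh := reach_head h1
    have hperm := reach_perm h1
    cases L₁ with
    | nil => simp at hh
    | cons b C₁ =>
      have hb : b = a := by simpa using hh
      subst hb
      exact rot_cons (fun z hz v hv => hf z (hperm.mem_iff.1 hz) v (hperm.mem_iff.1 hv)) h2

end FPW.Dsm
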