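import Pool.Agent.Lib.MP_deef39_co_Dsm.Repair

/-! # Dismantling a path into another one -/

set_option autoImplicit false

namespace FPW.Dsm

open FPW

variable {α : Type*} {p : α → ℝ × ℝ}

/-- after the removal of `x` the path `m` remains; it is dismantled in the order `q`: the next
vertex `y` is an end of `m` and the segment `x y` crosses no edge of `m` -/
def DisC (p : α → ℝ × ℝ) : α → List α → List α → Prop
  | _, [], m => m = []
  | x, y :: q, m => (∀ c d, Ed m c d → ¬ X p x y c d) ∧
      ∃ m', (m = y :: m' ∨ m = m' ++ [y]) ∧ DisC p y q m'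

theorem disC_perm : ∀ {q : List α} {x : α} {m : List α}, DisC p x q m → m.Perm q
  | [], _, m, h => by
    have h' : m = [] := h
    rw [h']
  | y :: q, _, m, ⟨_, m', hm, hd⟩ => by
    have := disC_perm hd
    rcases hm with rfl | rfl
    · exact this.cons y
    · exact (List.perm_append_singleton y m').trans (this.cons y)

theorem disC_rev : ∀ {q : List α} {x : α} {m : List α}, DisC p x q m → DisC p x q m.reverse
  | [], _, m, h => by
    have h' : m = [] := h
    rw [h']; exact rfl
  | y :: q, _, m, ⟨h0, m', hm, hd⟩ => by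
    refine ⟨fun c d hcd => h0 c d (ed_reverse.1 hcd), m'.reverse, ?_, disC_rev hd⟩
    rcases hm with rfl | rfl
    · right; simp
    · left; simp

/-- a path dismantled into the plane path `x, q` reaches it by rotations -/
theorem reach_disC : ∀ (q : List α) (x : α) (m A : List α), Plane p (Ed (x :: q)) →
    DisC p x q m → (∀ c d, Ed (A ++ [x]) c d → ∀ u v, Ed (x :: q) u v → ¬ X p u v c d) →
    Reach p NO (A ++ x :: m) (A ++ x :: q)
  | [], x, m, A, _, h, _ => by
    have h' : m = [] := h
    rw [h']; exact Relation.ReflTransGen.refl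
  | y :: q, x, m, A, hpl, ⟨h0, m', hm, hd⟩, hA => by
    have hA' : ∀ c d, Ed ((A ++ [x]) ++ [y]) c d → ∀ u v, Ed (y :: q) u v → ¬ X p u v c d := by
      intro c d hcd u v huv
      have huv' : Ed (x :: y :: q) u v := ed_cons2.2 (Or.inr (Or.inr huv))
      have e1 : (A ++ [x]) ++ [y] = A ++ [x, y] := by simp
      rw [e1, ed_snoc2] at hcd
      rcases hcd with hcd | ⟨rfl, rfl⟩ | ⟨rfl, rfl⟩
      · exact hA c d hcd u v huv'
      · exact hpl u v _ _ huv' (ed_cons2.2 (Or.inl ⟨rfl, rfl⟩))
      · exact hpl u v _ _ huv' (ed_cons2.2 (Or.inr (Or.inl ⟨rfl, rfl⟩)))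
    have e2 : ∀ R : List α, A ++ x :: R = (A ++ [x]) ++ R := fun R => by simp
    rcases hm with rfl | rfl
    · rw [e2 (y :: m'), e2 (y :: q)]
      exact reach_disC q y m' (A ++ [x]) (plane_tail hpl) hd hA'
    · have s1 : Rot p NO (A ++ x :: (m' ++ [y])) (A ++ x :: y :: m'.reverse) := by
        refine ⟨x, y, ⟨A, m', rfl, rfl⟩, ?_⟩
        intro c d hcd hX
        rcases ed_mid.1 (eo_no.1 hcd) with h1 | h1
        · exact hA c d h1 y x (ed_cons2.2 (Or.inr (Or.inl ⟨rfl, rfl⟩))) hX
        · cases m' with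
          | nil =>
            rcases ed_cons2.1 h1 with ⟨rfl, rfl⟩ | ⟨rfl, rfl⟩ | h1
            · exact not_X_of_eq3 hX
            · exact not_X_of_eq4 hX
            · exact h1.elim
          | cons b m' =>
            rcases ed_cons2.1 h1 with ⟨rfl, rfl⟩ | ⟨rfl, rfl⟩ | h1
            · exact not_X_of_eq3 hX
            · exact not_X_of_eq4 hX
            · exact h0 c d h1 (X_sw1.1 hX)
      refine Relation.ReflTransGen.trans (Relation.ReflTransGen.single s1) ?_
      rw [e2 (y :: m'.reverse), e2 (y :: q)]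
      exact reach_disC q y m'.reverse (A ++ [x]) (plane_tail hpl) (disC_rev hd) hA'

end FPW.Dsm
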