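import Pool.Agent.Lib.MP_deef39_co_Dsm.Dism

/-! # From lists to graphs -/

set_option autoImplicit false

namespace FPW.Dsm

open FPW

section
variable {α : Type*} {p : α → ℝ × ℝ}

theorem sp_of_notMem [Finite α] {y : α} {L : List α} (hy : y ∉ L)
    (h : p y ∉ convexHull ℝ (p '' {t | t ∈ L})) : Sp p y L := by
  have he : ({t | t ∈ y :: L} : Set α) \ {y} = {t | t ∈ L} := by
    ext t
    simp only [Set.mem_sdiff, Set.mem_singleton_iff]
    constructor
    · rintro ⟨h1, h2⟩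
      exact (List.mem_cons.1 h1).resolve_left h2
    · intro h1
      exact ⟨List.mem_cons_of_mem _ h1, fun h2 => hy (h2 ▸ h1)⟩
  have hE : Ext p {t | t ∈ y :: L} y := by
    unfold Ext
    rw [he]
    exact h
  obtain ⟨r, _, hr⟩ := ext_sep hE
  exact ⟨r, fun t ht => hr t (List.mem_cons_of_mem _ ht) (fun h2 => hy (h2 ▸ ht))⟩

/-- the path `l` is clean: whenever an entry `x` lies in the convex hull of the entries after it,
its predecessor `s` lies outside of the hull of `x` and the entries after it, and the entries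
before `s` lie outside of the hull of `s` and the entries after it -/
def Clean (p : α → ℝ × ℝ) (l : List α) : Prop :=
  ∀ (V : List α) (s x : α) (Q : List α), l = V ++ s :: x :: Q →
    p x ∈ convexHull ℝ (p '' {t | t ∈ Q}) →
    p s ∉ convexHull ℝ (p '' {t | t ∈ x :: Q}) ∧
      ∀ v ∈ V, p v ∉ convexHull ℝ (p '' {t | t ∈ s :: x :: Q})

theorem cln_of_clean [Finite α] {l : List α} (hn : l.Nodup) (h : Clean p l) : Cln p l := by
  intro V s x Q hl hx
  rw [hl] at hn
  have hn2 := (List.nodup_append.1 hn).2.1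
  have hn3 := (List.nodup_cons.1 hn2).2
  obtain ⟨h1, h2⟩ := h V s x Q hl (by
    by_contra h3
    exact hx (sp_of_notMem (List.nodup_cons.1 hn3).1 h3))
  refine ⟨sp_of_notMem (List.nodup_cons.1 hn2).1 h1, fun v hv => sp_of_notMem ?_ (h2 v hv)⟩
  intro hv'
  exact (List.nodup_append.1 hn).2.2 v hv v hv' rfl

/-- the arm `B` at `h` can be dismantled into a clean plane path -/
def Arm (p : α → ℝ × ℝ) (h : α) (B : List α) : Prop :=
  ∃ q : List α, DisC p h q B ∧ Plane p (Ed (h :: q)) ∧ Clean p (h :: q)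

theorem mov_of_arm [Finite α] (hgp : GP p) {h : α} {B : List α} (hn : (h :: B).Nodup)
    (ha : Arm p h B) : Mov p h B := by
  obtain ⟨q, hd, hpq, hc⟩ := ha
  have hqp := disC_perm hd
  have hnq : (h :: q).Nodup := (hqp.cons h).nodup hn
  have s1 : Reach p NO (h :: B) (h :: q) :=
    reach_disC q h B [] hpq hd (fun c d hcd => absurd hcd ed_single)
  obtain ⟨L', k1, k2, k3⟩ := clean_aux hgp hnq hpq (cln_of_clean hnq hc) q [h] rfl (by simp)
  exact ⟨L', k1.trans hqp.symm, u_plane hpq (reach_u k3), k2, s1.trans k3⟩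

/-- every tame list is connected to a separated one -/
theorem tame_list [Finite α] (hgp : GP p) {M N : List α} {h : α}
    (hn : (M.reverse ++ h :: N).Nodup) (hp : Plane p (Ed (M.reverse ++ h :: N)))
    (hM : Arm p h M) (hN : Arm p h N)
    (hs : M = [] ∨ ∃ u v : ℝ,
      (∀ t ∈ M, u * (p t).1 + v * (p t).2 < u * (p h).1 + v * (p h).2) ∧
      (∀ t ∈ N, u * (p h).1 + v * (p h).2 < u * (p t).1 + v * (p t).2)) :
    ∃ q : List α, q.Perm (M.reverse ++ h :: N) ∧ Plane p (Ed q) ∧ SI p q ∧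
      Relation.ReflTransGen (U p) (M.reverse ++ h :: N) q := by
  have hnN : (h :: N).Nodup := (List.nodup_append.1 hn).2.1
  have hpN : Plane p (Ed (h :: N)) := Plane_mono (fun c d hcd => ed_mid.2 (Or.inr hcd)) hp
  by_cases hMe : M = []
  · subst hMe
    rw [List.reverse_nil, List.nil_append] at hn hp ⊢
    obtain ⟨qN, k1, k2, k3, k4⟩ := mov_of_arm hgp hnN hN
    obtain ⟨q, m1, m2, m3, m4⟩ := ins_head_si hgp (x := h) (Q := qN)
      ((k1.symm.cons h).nodup hnN) k2 k3
    exact ⟨q, m1.trans (k1.cons h), m2, m3, (reach_u k4).trans m4⟩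
  · obtain ⟨u, v, hu, hv⟩ := hs.resolve_left hMe
    have hcr : ∀ t, cr (v, -u) (p h) (p t) =
        (u * (p t).1 + v * (p t).2) - (u * (p h).1 + v * (p h).2) := by
      intro t; unfold cr; ring
    have hrev : (M.reverse ++ h :: N).reverse = N.reverse ++ h :: M := by simp
    have hnM : (h :: M).Nodup := by
      have h2 := List.nodup_reverse.2 hn
      rw [hrev] at h2
      exact (List.nodup_append.1 h2).2.1
    have hpM : Plane p (Ed (h :: M)) := by
      have h2 := plane_rev hp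
      rw [hrev] at h2
      exact Plane_mono (fun c d hcd => ed_mid.2 (Or.inr hcd)) h2
    exact two_arm hgp hn (r := (v, -u)) (fun t ht => by rw [hcr]; linarith [hu t ht])
      (fun t ht => by rw [hcr]; linarith [hv t ht]) hMe (mov_of_arm hgp hnM hM)
      (mov_of_arm hgp hnN hN)

/-- two arms at the end of a common prefix -/
theorem fixed_list [Finite α] (hgp : GP p) {V N N' : List α} {h : α}
    (hn : (V ++ h :: N).Nodup) (hN : N'.Perm N) (hp : Plane p (Ed (V ++ h :: N)))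
    (hp' : Plane p (Ed (V ++ h :: N'))) (aN : Arm p h N) (aN' : Arm p h N')
    (hh : p h ∉ convexHull ℝ (p '' {t | t ∈ N}))
    (hV : ∀ v ∈ V, p v ∉ convexHull ℝ (p '' {t | t ∈ h :: N})) :
    Reach p NO (h :: N) (h :: N') ∧
      ∀ c d, Ed (V ++ [h]) c d → ∀ z ∈ h :: N, ∀ w ∈ h :: N, ¬ X p z w c d := by
  have hnN : (h :: N).Nodup := (List.nodup_append.1 hn).2.1
  have hnN' : (h :: N').Nodup := (hN.cons h).symm.nodup hnN
  have hpN : Plane p (Ed (h :: N)) := Plane_mono (fun c d hcd => ed_mid.2 (Or.inr hcd)) hp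
  have hpN' : Plane p (Ed (h :: N')) := Plane_mono (fun c d hcd => ed_mid.2 (Or.inr hcd)) hp'
  have hsp : Sp p h N := sp_of_notMem (List.nodup_cons.1 hnN).1 hh
  obtain ⟨q, k1, k2, k3, k4⟩ := mov_of_arm hgp hnN aN
  obtain ⟨q', k1', k2', k3', k4'⟩ := mov_of_arm hgp hnN' aN'
  have hnq : (h :: q).Nodup := (k1.symm.cons h).nodup hnN
  have hqq : q'.Perm q := (k1'.trans hN).trans k1.symm
  have s1 := kkr hgp _ h q q' rfl hnq hqq k2 k2'
    ⟨sp_perm (fun t ht => k1.mem_iff.1 ht) hsp, k3⟩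
    ⟨sp_perm (fun t ht => (k1'.trans hN).mem_iff.1 ht) hsp, k3'⟩
  refine ⟨(k4.trans s1).trans (reach_symm (plane_no.2 hpN') k4'), ?_⟩
  refine pre_out hgp hsp V hn hp (fun v hv => sp_of_notMem (fun hv' => ?_) (hV v hv))
  exact (List.nodup_append.1 hn).2.2 v hv v hv' rfl

end

/-- plane spanning paths, as in the frozen statement -/
def PSP {n : ℕ} (p : Fin n → ℝ × ℝ) (A : SimpleGraph (Fin n)) : Prop :=
  A.IsTree ∧ (∀ v : Fin n, (A.neighborSet v).ncard ≤ 2) ∧
    ∀ a b c d : Fin n, A.Adj a b → A.Adj c d → s(a, b) ≠ s(c, d) →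
      ∀ x : ℝ × ℝ, x ∈ segment ℝ (p a) (p b) → x ∈ segment ℝ (p c) (p d) →
        (x = p a ∨ x = p b) ∧ (x = p c ∨ x = p d)

/-- the graph `A` is the path which visits the vertices in the order `l` -/
def Traces {n : ℕ} (A : SimpleGraph (Fin n)) (l : List (Fin n)) : Prop :=
  l.Nodup ∧ (∀ v, v ∈ l) ∧ ∀ x y, A.Adj x y ↔ Ed l x y

theorem traces_gr {n : ℕ} {A : SimpleGraph (Fin n)} {l : List (Fin n)} (h : Traces A l) :
    A = gr l := by
  ext x y
  rw [gr_adj h.1, h.2.2]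

theorem plane_of_psp {n : ℕ} {p : Fin n → ℝ × ℝ} (hgp : GP p) {A : SimpleGraph (Fin n)}
    (hA : PSP p A) {l : List (Fin n)} (h : Traces A l) : Plane p (Ed l) := by
  intro a b c d hab hcd hX
  have hne := X_ne hX
  by_cases hs : s(a, b) = s(c, d)
  · rcases Sym2.eq_iff.1 hs with ⟨h4, _⟩ | ⟨h4, _⟩
    · exact hne.2.2.1 h4
    · exact hne.2.2.2.1 h4
  · exact (seg_iff hgp hne.1 hne.2.1 hs).1
      (hA.2.2 a b c d ((h.2.2 a b).2 hab) ((h.2.2 c d).2 hcd) hs) hX

theorem psp_gr {n : ℕ} {p : Fin n → ℝ × ℝ} (hgp : GP p) {l : List (Fin n)} (h1 : l.Nodup)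
    (h0 : l ≠ []) (h2 : ∀ v, v ∈ l) (h3 : Plane p (Ed l)) : PSP p (gr l) := by
  refine ⟨gr_tree h1 h0 h2, gr_deg h1, ?_⟩
  intro a b c d hab hcd hs
  have h4 := (gr_adj h1).1 hab
  have h5 := (gr_adj h1).1 hcd
  exact (seg_iff hgp (ed_ne h1 h4) (ed_ne h1 h5) hs).2 (h3 a b c d h4 h5)

/-- a flip -/
def Flip {n : ℕ} (p : Fin n → ℝ × ℝ) (A B : SimpleGraph (Fin n)) : Prop :=
  PSP p A ∧ PSP p B ∧ (A.edgeSet \ B.edgeSet).ncard = 1 ∧ (B.edgeSet \ A.edgeSet).ncard = 1

theorem u_flip {n : ℕ} {p : Fin n → ℝ × ℝ} (hgp : GP p) {l l' : List (Fin n)} (hl1 : l.Nodup)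
    (h0 : l ≠ []) (hl2 : ∀ v, v ∈ l) (hl4 : Plane p (Ed l))
    (hU : Relation.ReflTransGen (U p) l l') :
    Relation.ReflTransGen (Flip p) (gr l) (gr l') := by
  induction hU with
  | refl => exact Relation.ReflTransGen.refl
  | @tail l₁ l₂ h1 h2 ih =>
    have hP' : ∀ m : List (Fin n), Relation.ReflTransGen (U p) l m → PSP p (gr m) := by
      intro m hm
      have h3 := u_perm hm
      refine psp_gr hgp (h3.nodup_iff.2 hl1) (fun he => ?_) (fun v => h3.mem_iff.2 (hl2 v))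
        (u_plane hl4 hm)
      rw [he] at h3
      exact h0 h3.symm.eq_nil
    have hn1 : l₁.Nodup := (u_perm h1).nodup_iff.2 hl1
    rcases h2 with h3 | h3
    · obtain ⟨v, z, h4, _⟩ := id h3
      rcases gr_rot hn1 h4 with h5 | h5
      · rw [h5]
        exact ih
      · exact ih.tail ⟨hP' l₁ h1, hP' l₂ (h1.tail (Or.inl h3)), h5.1, h5.2⟩
    · rw [h3, gr_reverse]
      exact ih

/-- rotations of an arm behind a prefix are flips which keep the prefix -/
theorem reach_flip {n : ℕ} {p : Fin n → ℝ × ℝ} (hgp : GP p) {h : Fin n}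
    {V L l' : List (Fin n)} (hl1 : (V ++ h :: L).Nodup) (hl2 : ∀ v, v ∈ V ++ h :: L)
    (hl4 : Plane p (Ed (V ++ h :: L)))
    (hf : ∀ c d, Ed (V ++ [h]) c d → ∀ z ∈ h :: L, ∀ w ∈ h :: L, ¬ X p z w c d)
    (hU : Reach p NO (h :: L) l') :
    Relation.ReflTransGen (fun A B => Flip p A B ∧ (∃ m, Traces A (V ++ h :: m)) ∧
      ∃ m, Traces B (V ++ h :: m)) (gr (V ++ h :: L)) (gr (V ++ l')) := by
  induction hU with
  | refl => exact Relation.ReflTransGen.refl
  | @tail l₁ l₂ h1 h2 ih =>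
    have hP' : ∀ m : List (Fin n), Reach p NO (h :: L) m → (V ++ m).Nodup ∧
        PSP p (gr (V ++ m)) ∧ ∃ m', m = h :: m' ∧ Traces (gr (V ++ m)) (V ++ h :: m') := by
      intro m hm
      have h0 := reach_pre hf hm
      have h3 := reach_perm h0
      have h4 := reach_head hm
      have hnd : (V ++ m).Nodup := h3.nodup_iff.2 hl1
      cases m with
      | nil => simp at h4
      | cons b m =>
        have hb : b = h := by simpa using h4
        subst hb
        have hall : ∀ v, v ∈ V ++ b :: m := fun v => h3.mem_iff.2 (hl2 v)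
        exact ⟨hnd, psp_gr hgp hnd (by simp) hall (u_plane hl4 (reach_u h0)), m, rfl, hnd, hall,
          fun x y => gr_adj hnd⟩
    have k1 := hP' l₁ h1
    have k2 := hP' l₂ (h1.tail h2)
    obtain ⟨v, z, ⟨A, B, h4, h4'⟩, _⟩ := id h2
    have hrot : RotL v z (V ++ l₁) (V ++ l₂) :=
      ⟨V ++ A, B, by rw [h4, List.append_assoc], by rw [h4', List.append_assoc]⟩
    rcases gr_rot k1.1 hrot with h5 | h5
    · rw [h5]
      exact ih
    · obtain ⟨m₁, _, t1⟩ := k1.2.2
      obtain ⟨m₂, _, t2⟩ := k2.2.2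
      exact ih.tail ⟨⟨k1.2.1, k2.2.1, h5.1, h5.2⟩, ⟨m₁, t1⟩, ⟨m₂, t2⟩⟩

/-- there is a vertex `h` such that both arms at `h` are dismantlable or clean and lie on
different sides of a line through `h`; or the path starts at `h` -/
def Tame {n : ℕ} (p : Fin n → ℝ × ℝ) (A : SimpleGraph (Fin n)) : Prop :=
  ∃ (M N : List (Fin n)) (h : Fin n), Traces A (M.reverse ++ h :: N) ∧ Arm p h M ∧ Arm p h N ∧
    (M = [] ∨ ∃ u v : ℝ, (∀ t ∈ M, u * (p t).1 + v * (p t).2 < u * (p h).1 + v * (p h).2) ∧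
      (∀ t ∈ N, u * (p h).1 + v * (p h).2 < u * (p t).1 + v * (p t).2))

theorem tame_conn {n : ℕ} {p : Fin n → ℝ × ℝ} (hgp : GP p) {G H : SimpleGraph (Fin n)}
    (hG : PSP p G) (hH : PSP p H) (tG : Tame p G) (tH : Tame p H) :
    Relation.ReflTransGen (Flip p) G H := by
  obtain ⟨M, N, h, t1, t2, t3, t4⟩ := tG
  obtain ⟨M', N', h', t1', t2', t3', t4'⟩ := tH
  have hp := plane_of_psp hgp hG t1
  have hp' := plane_of_psp hgp hH t1'
  obtain ⟨q, k1, k2, k3, k4⟩ := tame_list hgp t1.1 hp t2 t3 t4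
  obtain ⟨q', k1', k2', k3', k4'⟩ := tame_list hgp t1'.1 hp' t2' t3' t4'
  have hperm : (M'.reverse ++ h' :: N').Perm (M.reverse ++ h :: N) :=
    (List.perm_ext_iff_of_nodup t1'.1 t1.1).2 fun v => ⟨fun _ => t1.2.1 v, fun _ => t1'.2.1 v⟩
  have hqq := kkrU hgp (k1.nodup_iff.2 t1.1) ((k1'.trans hperm).trans k1.symm) k2 k2' k3 k3'
  have hU := (k4.trans hqq).trans (u_symm hp' k4')
  rw [traces_gr t1, traces_gr t1']
  exact u_flip hgp t1.1 (by simp) t1.2.1 hp hU

/-- paths with a common prefix `V, h` -/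
theorem fixed_conn {n : ℕ} {p : Fin n → ℝ × ℝ} (hgp : GP p) {G H : SimpleGraph (Fin n)}
    (hG : PSP p G) (hH : PSP p H) {h : Fin n} {V N N' : List (Fin n)}
    (tG : Traces G (V ++ h :: N)) (tH : Traces H (V ++ h :: N')) (aG : Arm p h N)
    (aH : Arm p h N') (hh : p h ∉ convexHull ℝ (p '' {t | t ∈ N}))
    (hV : ∀ v ∈ V, p v ∉ convexHull ℝ (p '' {t | t ∈ h :: N})) :
    Relation.ReflTransGen (fun A B => Flip p A B ∧ (∃ m, Traces A (V ++ h :: m)) ∧
      ∃ m, Traces B (V ++ h :: m)) G H := by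
  have hperm : (V ++ h :: N').Perm (V ++ h :: N) :=
    (List.perm_ext_iff_of_nodup tH.1 tG.1).2 fun v => ⟨fun _ => tG.2.1 v, fun _ => tH.2.1 v⟩
  have hN : N'.Perm N := (List.perm_cons h).1 ((List.perm_append_left_iff V).1 hperm)
  have hp := plane_of_psp hgp hG tG
  obtain ⟨k1, k2⟩ := fixed_list hgp tG.1 hN hp (plane_of_psp hgp hH tH) aG aH hh hV
  rw [traces_gr tG, traces_gr tH]
  exact reach_flip hgp tG.1 tG.2.1 hp k2 k1

/-- a plane path is dismantled into itself -/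
theorem disC_self {α : Type*} {p : α → ℝ × ℝ} : ∀ (B : List α) (h : α), Plane p (Ed (h :: B)) →
    DisC p h B B
  | [], _, _ => rfl
  | y :: B, h, hp => by
    refine ⟨fun c d hcd => hp h y c d (ed_cons2.2 (Or.inl ⟨rfl, rfl⟩))
      (ed_cons2.2 (Or.inr (Or.inr hcd))), B, Or.inl rfl, disC_self B y (plane_tail hp)⟩

/-- clean plane spanning paths are tame -/
theorem tame_of_clean {n : ℕ} {p : Fin n → ℝ × ℝ} (hgp : GP p) {G : SimpleGraph (Fin n)}
    (hG : PSP p G) {l : List (Fin n)} (hl : Traces G l) (hc : Clean p l) : Tame p G := by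
  have hp := plane_of_psp hgp hG hl
  cases l with
  | nil =>
    obtain ⟨v⟩ := hG.1.connected.nonempty
    exact absurd (hl.2.1 v) List.not_mem_nil
  | cons h N =>
    refine ⟨[], N, h, hl, ⟨[], rfl, fun _ _ _ _ h1 _ => h1.elim, ?_⟩,
      ⟨N, disC_self N h hp, hp, hc⟩, Or.inl rfl⟩
    intro V s x Q hl'
    exact absurd (congrArg List.length hl')
      (by simp only [List.length_append, List.length_cons, List.length_nil]; omega)

/-- the entry `x` at the split `l = V ++ x :: Q` is covered -/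
def Covered {n : ℕ} (p : Fin n → ℝ × ℝ) (l : List (Fin n)) (x : Fin n) : Prop :=
  ∃ V Q : List (Fin n), l = V ++ x :: Q ∧ p x ∈ convexHull ℝ (p '' {t | t ∈ Q})

/-- at most one covered vertex -/
theorem clean_of_one {n : ℕ} {p : Fin n → ℝ × ℝ} {l : List (Fin n)} (hn : l.Nodup)
    (h : ∀ x y, Covered p l x → Covered p l y → x = y) : Clean p l := by
  intro V s x Q hl hx
  have hn' := hn
  rw [hl] at hn'
  have hn2 := (List.nodup_append.1 hn').2.1
  have hcx : Covered p l x := ⟨V ++ [s], Q, by rw [hl]; simp, hx⟩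
  refine ⟨fun hs => ?_, fun v hv hv' => ?_⟩
  · have h1 : s = x := h s x ⟨V, x :: Q, hl, hs⟩ hcx
    exact (List.nodup_cons.1 hn2).1 (by rw [h1]; exact List.mem_cons_self)
  · obtain ⟨V₁, V₂, hV⟩ := List.append_of_mem hv
    have h1 : Covered p l v := by
      refine ⟨V₁, V₂ ++ s :: x :: Q, by rw [hl, hV]; simp, convexHull_mono ?_ hv'⟩
      exact Set.image_mono (fun t ht => List.mem_append_right _ ht)
    have h2 : v = x := h v x h1 hcx
    exact (List.nodup_append.1 hn').2.2 v hv x (by simp) h2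

end FPW.Dsm
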