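import Pool.Agent.Lib.MP_deef39_co_Dsm.Sort

/-! # Separated paths and dismantlable paths are connected -/

set_option autoImplicit false

namespace FPW.Dsm

open FPW

variable {α : Type*} {p : α → ℝ × ℝ}

theorem plane_tail {s : α} {L : List α} (h : Plane p (Ed (s :: L))) : Plane p (Ed L) := by
  cases L with
  | nil => exact fun _ _ _ _ h _ => h.elim
  | cons a L => exact Plane_mono (fun x y hxy => ed_cons2.2 (Or.inr (Or.inr hxy))) h

theorem plane_rev {L : List α} (h : Plane p (Ed L)) : Plane p (Ed L.reverse) :=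
  Plane_mono (fun _ _ hxy => ed_reverse.1 hxy) h

/-- rotation of the end `y` of `s :: (m ++ [y])` at the head `s` -/
theorem rot_head {s y : α} {m : List α}
    (hf : ∀ z ∈ m ++ [y], ∀ v ∈ m ++ [y], ¬ X p z v s y) :
    Rot p NO (s :: (m ++ [y])) (s :: y :: m.reverse) := by
  refine ⟨s, y, ⟨[], m, rfl, rfl⟩, ?_⟩
  intro c d hcd hX
  have hcd' := eo_no.1 hcd
  cases m with
  | nil =>
    rcases hcd' with ⟨rfl, rfl⟩ | ⟨rfl, rfl⟩ | h
    · exact not_X_of_eq3 hX
    · exact not_X_of_eq4 hX
    · exact h.elim
  | cons b m =>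
    rcases hcd' with ⟨rfl, rfl⟩ | ⟨rfl, rfl⟩ | h
    · exact not_X_of_eq3 hX
    · exact not_X_of_eq4 hX
    · exact hf c (ed_mem h) d (ed_mem' h) (X_sw2.1 (X_comm.1 hX))

theorem kkr [Finite α] (hgp : GP p) : ∀ (n : ℕ) (s : α) (B B' : List α), B.length = n →
    (s :: B).Nodup → B'.Perm B → Plane p (Ed (s :: B)) → Plane p (Ed (s :: B')) →
    SI p (s :: B) → SI p (s :: B') → Reach p NO (s :: B) (s :: B') := by
  intro n
  induction n with
  | zero =>
    intro s B B' hl _ hperm _ _ _ _
    have hB : B = [] := List.length_eq_zero_iff.1 hl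
    subst hB
    rw [List.perm_nil.1 hperm]
    exact Relation.ReflTransGen.refl
  | succ n ih =>
    intro s B B' hl hn hperm hp hp' hs hs'
    cases B with
    | nil => simp at hl
    | cons a C =>
    cases B' with
    | nil => exact absurd hperm.length_eq (by simp)
    | cons a' C' =>
    have hnB := (List.nodup_cons.1 hn).2
    have hnB' : (a' :: C').Nodup := hperm.symm.nodup hnB
    have hsB' : s ∉ a' :: C' := fun h => (List.nodup_cons.1 hn).1 (hperm.mem_iff.1 h)
    have hCl : C.length = n := by simpa using hl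
    have hf : ∀ z ∈ a :: C, ∀ v ∈ a :: C, ¬ X p z v s a :=
      fun z hz v hv => free hgp hn hp hs.2.1 hs.1 hz hv
    have hf' : ∀ z ∈ a' :: C', ∀ v ∈ a' :: C', ¬ X p z v s a' :=
      fun z hz v hv => free hgp (List.nodup_cons.2 ⟨hsB', hnB'⟩) hp' hs'.2.1 hs'.1 hz hv
    by_cases haa : a = a'
    · subst haa
      exact reach_cons hf (ih a C C' hCl hnB ((List.perm_cons a).1 hperm) (plane_tail hp)
        (plane_tail hp') hs.2 hs'.2)
    · obtain ⟨r, hr⟩ := hs.2.1
      obtain ⟨r', hr'⟩ := hs'.2.1
      obtain ⟨M, m1, m2, m3, m4⟩ := sort2 hgp hnB (a := a) (a' := a') List.mem_cons_self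
        (hperm.mem_iff.1 List.mem_cons_self) haa
        (r := r) (r' := r')
        (fun t ht hta => hr t ((List.mem_cons.1 ht).resolve_left hta))
        (fun t ht hta => hr' t ((List.mem_cons.1 (hperm.mem_iff.2 ht)).resolve_left hta))
      have mpl : Plane p (Ed (a :: (M ++ [a']))) := m2 _ (List.Sublist.refl _)
      have mn : (a :: (M ++ [a'])).Nodup := m1.symm.nodup hnB
      have hrev : (a :: (M ++ [a'])).reverse = a' :: (M.reverse ++ [a]) := by simp
      have mpl' : Plane p (Ed (a' :: (M.reverse ++ [a]))) := by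
        rw [← hrev]; exact plane_rev mpl
      have mperm' : (a' :: (M.reverse ++ [a])).Perm (a' :: C') := by
        rw [← hrev]
        exact ((List.reverse_perm _).trans m1).trans hperm.symm
      have s1 : Reach p NO (s :: a :: C) (s :: a :: (M ++ [a'])) :=
        reach_cons hf (ih a C (M ++ [a']) hCl hnB ((List.perm_cons a).1 m1) (plane_tail hp) mpl
          hs.2 m3)
      have s2 : Rot p NO (s :: a :: (M ++ [a'])) (s :: a' :: (M.reverse ++ [a])) := by
        have h := rot_head (p := p) (s := s) (y := a') (m := a :: M) (fun z hz v hv =>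
          hf' z (hperm.mem_iff.2 (m1.mem_iff.1 hz)) v (hperm.mem_iff.2 (m1.mem_iff.1 hv)))
        simpa using h
      have s3 : Reach p NO (s :: a' :: (M.reverse ++ [a])) (s :: a' :: C') :=
        reach_cons (fun z hz v hv => hf' z (mperm'.mem_iff.1 hz) v (mperm'.mem_iff.1 hv))
          (ih a' (M.reverse ++ [a]) C' (by
            have := mperm'.length_eq
            have h2 := hperm.length_eq
            simp only [List.length_cons] at this h2
            omega) (mperm'.symm.nodup hnB') ((List.perm_cons a').1 mperm'.symm) mpl'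
            (plane_tail hp') m4 hs'.2)
      exact (s1.tail s2).trans s3

theorem reach_u {l l' : List α} (h : Reach p NO l l') : Relation.ReflTransGen (U p) l l' :=
  Relation.ReflTransGen.mono (fun _ _ h1 => Or.inl h1) _ _ h

/-- all separated plane paths on a point set are connected -/
theorem kkrU [Finite α] (hgp : GP p) {l l' : List α} (hn : l.Nodup) (hperm : l'.Perm l)
    (hp : Plane p (Ed l)) (hp' : Plane p (Ed l')) (hs : SI p l) (hs' : SI p l') :
    Relation.ReflTransGen (U p) l l' := by
  cases l with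
  | nil => rw [List.perm_nil.1 hperm]
  | cons a C =>
  cases l' with
  | nil => exact absurd hperm.length_eq (by simp)
  | cons a' C' =>
  have hn' : (a' :: C').Nodup := hperm.symm.nodup hn
  by_cases haa : a = a'
  · subst haa
    exact reach_u (kkr hgp _ a C C' rfl hn ((List.perm_cons a).1 hperm) hp hp' hs hs')
  · obtain ⟨r, hr⟩ := hs.1
    obtain ⟨r', hr'⟩ := hs'.1
    obtain ⟨M, m1, m2, m3, m4⟩ := sort2 hgp hn (a := a) (a' := a') List.mem_cons_self
      (hperm.mem_iff.1 List.mem_cons_self) haa
      (r := r) (r' := r')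
      (fun t ht hta => hr t ((List.mem_cons.1 ht).resolve_left hta))
      (fun t ht hta => hr' t ((List.mem_cons.1 (hperm.mem_iff.2 ht)).resolve_left hta))
    have mpl : Plane p (Ed (a :: (M ++ [a']))) := m2 _ (List.Sublist.refl _)
    have hrev : (a :: (M ++ [a'])).reverse = a' :: (M.reverse ++ [a]) := by simp
    have mpl' : Plane p (Ed (a' :: (M.reverse ++ [a]))) := by
      rw [← hrev]; exact plane_rev mpl
    have mperm' : (a' :: (M.reverse ++ [a])).Perm (a' :: C') := by
      rw [← hrev]
      exact ((List.reverse_perm _).trans m1).trans hperm.symm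
    have s1 := reach_u (kkr hgp _ a C (M ++ [a']) rfl hn ((List.perm_cons a).1 m1) hp mpl hs m3)
    have s2 : U p (a :: (M ++ [a'])) (a' :: (M.reverse ++ [a])) := Or.inr hrev.symm
    have s3 := reach_u (kkr hgp _ a' (M.reverse ++ [a]) C' rfl (mperm'.symm.nodup hn')
      ((List.perm_cons a').1 mperm'.symm) mpl' hp' m4 hs')
    exact (s1.tail s2).trans s3

/-- every edge `x y` of the path is not crossed by segments between later vertices, and `y` is
separated from the later vertices -/
def Fr (p : α → ℝ × ℝ) : List α → Prop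
  | x :: y :: L => (∀ z ∈ L, ∀ v ∈ L, ¬ X p z v x y) ∧ Sp p y L ∧ Fr p (y :: L)
  | _ => True

theorem fr_of_si (hgp : GP p) : ∀ l : List α, l.Nodup → Plane p (Ed l) → SI p l → Fr p l
  | [], _, _, _ => trivial
  | [_], _, _, _ => trivial
  | x :: y :: L, hn, hp, hs =>
    ⟨fun _ hz _ hv => free hgp hn hp hs.2.1 hs.1 (List.mem_cons_of_mem _ hz)
      (List.mem_cons_of_mem _ hv), hs.2.1,
      fr_of_si hgp (y :: L) (List.nodup_cons.1 hn).2 (plane_tail hp) hs.2⟩

theorem fr_free {x y : α} {L : List α} (h : ∀ z ∈ L, ∀ v ∈ L, ¬ X p z v x y) :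
    ∀ z ∈ y :: L, ∀ v ∈ y :: L, ¬ X p z v x y := by
  intro z hz v hv hX
  obtain ⟨_, _, h3, h4, h5, h6⟩ := X_ne hX
  exact h z ((List.mem_cons.1 hz).resolve_left h4) v ((List.mem_cons.1 hv).resolve_left h6) hX

theorem si_of_fr : ∀ (x : α) (L : List α), Fr p (x :: L) → SI p L
  | _, [], _ => trivial
  | _, y :: L, h => ⟨h.2.1, si_of_fr y L h.2.2⟩

theorem plane_of_fr : ∀ l : List α, Fr p l → Plane p (Ed l)
  | [], _ => fun _ _ _ _ h _ => h.elim
  | [_], _ => fun _ _ _ _ h _ => h.elim
  | x :: y :: L, h => plane_cons2 (plane_of_fr (y :: L) h.2.2)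
      (fun c hc d hd hX => fr_free h.1 c hc d hd (X_comm.1 hX))

theorem dis_perm : ∀ {q l : List α}, Dis q l → l.Perm q
  | [], l, h => by
    have h' : l = [] := h
    rw [h']
  | x :: q, l, ⟨m, hm, hd⟩ => by
    have := dis_perm hd
    rcases hm with rfl | rfl
    · exact this.cons x
    · exact (List.perm_append_singleton x m).trans (this.cons x)

theorem dis_rev : ∀ {q l : List α}, Dis q l → Dis q l.reverse
  | [], l, h => by
    have h' : l = [] := h
    rw [h']; exact rfl
  | x :: q, l, ⟨m, hm, hd⟩ => by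
    refine ⟨m.reverse, ?_, dis_rev hd⟩
    rcases hm with rfl | rfl
    · right; simp
    · left; simp

/-- a path with head `x` dismantled in the order `q` reaches the path `x, q` -/
theorem reach_dis : ∀ (q : List α) (x : α) (m : List α), Fr p (x :: q) → Dis q m →
    Reach p NO (x :: m) (x :: q)
  | [], x, m, _, h => by
    have h' : m = [] := h
    rw [h']; exact Relation.ReflTransGen.refl
  | y :: q, x, m, hfr, ⟨m', hm, hd⟩ => by
    have hfree := fr_free hfr.1
    rcases hm with rfl | rfl
    · have hpm : (y :: m').Perm (y :: q) := (dis_perm hd).cons y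
      exact reach_cons (fun z hz v hv => hfree z (hpm.mem_iff.1 hz) v (hpm.mem_iff.1 hv))
        (reach_dis q y m' hfr.2.2 hd)
    · have hpm : (m' ++ [y]).Perm (y :: q) :=
        (List.perm_append_singleton y m').trans ((dis_perm hd).cons y)
      have hpr : (y :: m'.reverse).Perm (y :: q) := (dis_perm (dis_rev hd)).cons y
      have s1 := rot_head (p := p) (s := x) (y := y) (m := m') (fun z hz v hv =>
        hfree z (hpm.mem_iff.1 hz) v (hpm.mem_iff.1 hv))
      have s2 := reach_cons (s := x) (fun z hz v hv =>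
        hfree z (hpr.mem_iff.1 hz) v (hpr.mem_iff.1 hv))
        (reach_dis q y m'.reverse hfr.2.2 (dis_rev hd))
      exact (Relation.ReflTransGen.single s1).trans s2

theorem u_dis {q l : List α} (hfr : Fr p q) (hd : Dis q l) :
    Relation.ReflTransGen (U p) l q := by
  cases q with
  | nil =>
    have h' : l = [] := hd
    rw [h']
  | cons x q =>
    obtain ⟨m, rfl | rfl, hd⟩ := hd
    · exact reach_u (reach_dis q x m hfr hd)
    · have s1 : U p (m ++ [x]) (x :: m.reverse) := Or.inr (by simp)
      exact (Relation.ReflTransGen.single s1).trans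
        (reach_u (reach_dis q x m.reverse hfr (dis_rev hd)))

theorem dis_append {q l : List α} (h : Dis q l) (M : List α) :
    Dis (M.reverse ++ q) (l ++ M) := by
  induction M using List.reverseRecOn with
  | nil => simpa using h
  | append_singleton M y ih =>
    rw [List.reverse_append, List.reverse_singleton, List.singleton_append, List.cons_append,
      ← List.append_assoc]
    exact ⟨l ++ M, Or.inr rfl, ih⟩

end FPW.Dsm
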