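import Pool.Agent.Lib.MP_deef39_co_Dsm.Arms

/-! # A separated path with one more end vertex -/

set_option autoImplicit false

namespace FPW.Dsm

open FPW

variable {α : Type*} {p : α → ℝ × ℝ}

/-- `free` with weaker hypotheses: the edges of `C` do not cross the segment `s a` -/
theorem free' (hgp : GP p) {s a : α} {C : List α} (hn : (s :: a :: C).Nodup)
    (hp : ∀ c d, Ed C c d → ¬ X p c d s a) (ha : Sp p a C) (hs : Sp p s (a :: C)) {z v : α}
    (hz : z ∈ C) (hv : v ∈ C) : ¬ X p z v s a := by
  obtain ⟨r, hr⟩ := ha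
  obtain ⟨r', hr'⟩ := hs
  have hsn := (List.nodup_cons.1 hn).1
  have han := (List.nodup_cons.1 (List.nodup_cons.1 hn).2).1
  have hsa : s ≠ a := fun h => hsn (by rw [h]; exact List.mem_cons_self)
  have hsC : ∀ t ∈ C, s ≠ t := fun t ht h => hsn (by rw [h]; exact List.mem_cons_of_mem _ ht)
  have haC : ∀ t ∈ C, a ≠ t := fun t ht h => han (by rw [h]; exact ht)
  have hFa : Aff p (fun t => cr r (p a) (p t)) := aff_cr r (p a)
  have hFs : Aff p (fun t => cr r' (p s) (p t)) := aff_cr r' (p s)
  have key : ∀ c ∈ C, ∀ d ∈ C, 0 < o p s a c → o p s a d < 0 →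
      o p c d s < 0 ∧ 0 < o p c d a * cr r (p a) (p s) := by
    intro c hc d hd h1 h2
    have e1 := aff_four hFs s a c d
    have e2 := aff_four hFa s a c d
    simp only [cr_self, mul_zero] at e1 e2
    have k1 : 0 < cr r' (p s) (p c) := hr' c (List.mem_cons_of_mem _ hc)
    have k2 : 0 < cr r' (p s) (p d) := hr' d (List.mem_cons_of_mem _ hd)
    have k3 : 0 < cr r' (p s) (p a) := hr' a List.mem_cons_self
    have k4 : 0 < cr r (p a) (p c) := hr c hc
    have k5 : 0 < cr r (p a) (p d) := hr d hd
    have m1 := mul_pos h1 k2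
    have m2 := mul_neg_of_neg_of_pos h2 k1
    have m3 := mul_pos h1 k5
    have m4 := mul_neg_of_neg_of_pos h2 k4
    constructor
    · by_contra h3
      have m5 := mul_nonneg (not_lt.1 h3) k3.le
      linarith
    · linarith
  have main : ∀ z ∈ C, ∀ v ∈ C, 0 < o p s a z → o p s a v < 0 → ¬ X p z v s a := by
    intro z hz v hv h1 h2 hX
    obtain ⟨k1, k2⟩ := key z hz v hv h1 h2
    have k3 : 0 < o p z v a := by
      have h3 := hX.1
      by_contra h4
      have := mul_nonneg_of_nonpos_of_nonpos k1.le (not_lt.1 h4)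
      linarith
    have k4 : 0 < cr r (p a) (p s) := by
      by_contra h4
      have := mul_nonpos_of_nonneg_of_nonpos k3.le (not_lt.1 h4)
      linarith
    obtain ⟨c, d, hcd, h5, h6⟩ := ivt (φ := fun t => o p s a t) C
      (fun t ht => hgp.ne s a t hsa (haC t ht) (hsC t ht)) z hz v hv h1 h2
    have hc := ed_mem hcd
    have hd := ed_mem' hcd
    obtain ⟨m1, m2⟩ := key c hc d hd h5 h6
    have m3 : 0 < o p c d a := by
      by_contra h7
      have := mul_nonpos_of_nonpos_of_nonneg (not_lt.1 h7) k4.le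
      linarith
    exact hp c d hcd ⟨mul_neg_of_neg_of_pos m1 m3, mul_neg_of_pos_of_neg h5 h6⟩
  intro hX
  have h7 := hX.2
  rcases mul_neg_iff.1 h7 with ⟨h8, h9⟩ | ⟨h8, h9⟩
  · exact main z hz v hv h8 h9 hX
  · exact main v hv z hz h9 h8 (X_sw1.1 hX)

/-- the segment `s a` is separated from the points of `C` by a line through `a` -/
theorem sep_line (hgp : GP p) {s a : α} {C : List α} (hn : (s :: a :: C).Nodup)
    (hf : ∀ z ∈ C, ∀ v ∈ C, ¬ X p z v s a) (ha : Sp p a C) (hs : Sp p s (a :: C)) :
    ∃ r : ℝ × ℝ, (∀ t ∈ C, 0 < cr r (p a) (p t)) ∧ cr r (p a) (p s) ≤ 0 := by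
  obtain ⟨r, hr⟩ := ha
  obtain ⟨r', hr'⟩ := hs
  have hsn := (List.nodup_cons.1 hn).1
  have han := (List.nodup_cons.1 (List.nodup_cons.1 hn).2).1
  have hsa : s ≠ a := fun h => hsn (by rw [h]; exact List.mem_cons_self)
  have hsC : ∀ t ∈ C, s ≠ t := fun t ht h => hsn (by rw [h]; exact List.mem_cons_of_mem _ ht)
  have haC : ∀ t ∈ C, a ≠ t := fun t ht h => han (by rw [h]; exact ht)
  have ho : ∀ t, o p s a t = cr ((p a).1 - (p s).1, (p a).2 - (p s).2) (p a) (p t) := by
    intro t; unfold o cr; ring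
  have ho' : ∀ t, - o p s a t = cr (-((p a).1 - (p s).1), -((p a).2 - (p s).2)) (p a) (p t) := by
    intro t; unfold o cr; ring
  have hos : o p s a s = 0 := by unfold o; ring
  by_cases h1 : ∀ t ∈ C, 0 < o p s a t
  · exact ⟨_, fun t ht => by rw [← ho]; exact h1 t ht, by rw [← ho, hos]⟩
  by_cases h2 : ∀ t ∈ C, o p s a t < 0
  · exact ⟨_, fun t ht => by rw [← ho']; linarith [h2 t ht], by rw [← ho', hos, neg_zero]⟩
  push Not at h1 h2
  obtain ⟨v, hv, hv1⟩ := h1
  obtain ⟨z, hz, hz1⟩ := h2
  have hv2 : o p s a v < 0 := lt_of_le_of_ne hv1 (hgp.ne s a v hsa (haC v hv) (hsC v hv))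
  have hz2 : 0 < o p s a z := lt_of_le_of_ne hz1 (hgp.ne s a z hsa (haC z hz) (hsC z hz)).symm
  refine ⟨r, hr, ?_⟩
  have e1 := aff_four (aff_cr (p := p) r' (p s)) s a z v
  have e2 := aff_four (aff_cr (p := p) r (p a)) s a z v
  simp only [cr_self, mul_zero] at e1 e2
  have k1 : 0 < cr r' (p s) (p z) := hr' z (List.mem_cons_of_mem _ hz)
  have k2 : 0 < cr r' (p s) (p v) := hr' v (List.mem_cons_of_mem _ hv)
  have k3 : 0 < cr r' (p s) (p a) := hr' a List.mem_cons_self
  have m1 := mul_pos hz2 k2
  have m2 := mul_neg_of_neg_of_pos hv2 k1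
  have m3 := mul_pos hz2 (hr v hv)
  have m4 := mul_neg_of_neg_of_pos hv2 (hr z hz)
  have n1 : o p z v s < 0 := by
    by_contra h3
    have m5 := mul_nonneg (not_lt.1 h3) k3.le
    linarith
  have n2 : o p z v a ≤ 0 := by
    by_contra h3
    exact hf z hz v hv ⟨mul_neg_of_neg_of_pos n1 (not_le.1 h3), mul_neg_of_pos_of_neg hz2 hv2⟩
  by_contra h3
  have m6 := mul_nonpos_of_nonpos_of_nonneg n2 (not_le.1 h3).le
  linarith

/-- an affine function which is nonnegative on `L` and not identically zero is positive at a point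
which is not separated from `L` -/
theorem pos_of_not_sp (hgp : GP p) {r c : ℝ × ℝ} {x : α} {L : List α} (hx : ¬ Sp p x L)
    (hxL : x ∉ L) (h0 : ∀ t ∈ L, 0 ≤ cr r c (p t)) {w : α} (hw : cr r c (p w) ≠ 0) :
    0 < cr r c (p x) := by
  by_contra hcon
  apply hx
  rcases lt_or_eq_of_le (not_lt.1 hcon) with h1 | h1
  · refine ⟨r, fun t ht => ?_⟩
    rw [cr_sub r (p x) (p t) c]
    have := h0 t ht
    linarith
  · exact sp_of_aff hgp (F := fun t => cr r c (p t)) (aff_cr r c) h1 hxL h0 hw

/-- the vertex `x` attached to the last vertex of a separated plane path -/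
theorem ins_last_si (hgp : GP p) {x : α} : ∀ Q : List α, (Q ++ [x]).Nodup →
    Plane p (Ed (Q ++ [x])) → SI p Q → ∃ ρ : List α, Fr p ρ ∧ SI p ρ ∧ Dis ρ (Q ++ [x]) ∧
      (Q ≠ [] → (ρ = x :: Q ∧ ¬ Sp p (Q.headD x) (Q.tail ++ [x])) ∨
        (ρ.head? = Q.head? ∧ Sp p (Q.headD x) (Q.tail ++ [x])))
  | [], _, _, _ => ⟨[x], trivial, ⟨⟨(0, 0), fun _ h => absurd h List.not_mem_nil⟩, trivial⟩,
      ⟨[], Or.inl rfl, rfl⟩, fun h => absurd rfl h⟩
  | [a], hn, hp, hs => by
    have hax : a ≠ x := by
      intro h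
      rw [h] at hn
      simp at hn
    have hsp : Sp p a [x] := ⟨_, fun t ht => by
      rw [List.mem_singleton.1 ht]
      exact cr_dot_pos (fun h => hax (hgp.inj h))⟩
    refine ⟨[a, x], ⟨fun _ h => absurd h List.not_mem_nil, ⟨(0, 0), fun _ h =>
      absurd h List.not_mem_nil⟩, trivial⟩, ⟨hsp, ⟨(0, 0), fun _ h => absurd h List.not_mem_nil⟩,
      trivial⟩, ⟨[x], Or.inl rfl, ⟨[], Or.inl rfl, rfl⟩⟩, fun _ => Or.inr ⟨rfl, hsp⟩⟩
  | a :: b :: K, hn, hp, hs => by
    have hn' : ((b :: K) ++ [x]).Nodup := (List.nodup_cons.1 hn).2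
    have hp' : Plane p (Ed ((b :: K) ++ [x])) := plane_tail hp
    obtain ⟨ρ, k1, k2, k3, k4⟩ := ins_last_si hgp (b :: K) hn' hp' hs.2
    have hab : a ∉ (b :: K) ++ [x] := (List.nodup_cons.1 hn).1
    have hnQ : (a :: b :: K).Nodup := (List.nodup_append.1 hn).1
    have hxQ : x ∉ a :: b :: K := by
      intro h
      exact (List.nodup_append.1 hn).2.2 x h x (by simp) rfl
    have hax : a ≠ x := fun h => hxQ (h ▸ List.mem_cons_self)
    by_cases hsp : Sp p a ((b :: K) ++ [x])
    · -- `a` stays first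
      rcases k4 (List.cons_ne_nil _ _) with ⟨k5, k6⟩ | ⟨k5, k6⟩
      · -- `ρ = x :: b :: K`
        subst k5
        have hplQ : Plane p (Ed (a :: b :: K)) := by
          refine Plane_mono (fun c d hcd => ?_) hp
          have : Ed ((a :: b :: K) ++ [x]) c d := by
            rcases List.eq_nil_or_concat K with rfl | ⟨K', e, rfl⟩
            · exact ed_cons2.2 ((ed_cons2.1 hcd).imp id (fun h => h.imp id (fun h => h.elim)))
            · rw [List.concat_eq_append] at hcd ⊢
              have h1 : (a :: b :: (K' ++ [e])) ++ [x] = (a :: b :: K') ++ [e, x] := by simp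
              rw [h1, ed_snoc2]
              left
              simpa using hcd
          exact this
        have hfab : ∀ z ∈ b :: K, ∀ v ∈ b :: K, ¬ X p z v a b :=
          fun z hz v hv => free hgp hnQ hplQ hs.2.1 hs.1 hz hv
        have hfree : ∀ z ∈ b :: K, ∀ v ∈ b :: K, ¬ X p z v a x := by
          obtain ⟨r, hr, hra⟩ := sep_line hgp hnQ
            (fun z hz v hv => hfab z (List.mem_cons_of_mem _ hz) v (List.mem_cons_of_mem _ hv))
            hs.2.1 hs.1
          -- `x` is strictly on the other side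
          have hxneg : cr r (p b) (p x) < 0 := by
            by_contra h1
            apply k6
            have h2 : ∀ t ∈ K ++ [x], 0 ≤ cr r (p b) (p t) := by
              intro t ht
              rcases List.mem_append.1 ht with ht | ht
              · exact (hr t ht).le
              · rw [List.mem_singleton.1 ht]; exact not_lt.1 h1
            have hbn : b ∉ K ++ [x] := (List.nodup_cons.1 hn').1
            cases K with
            | nil =>
              exact ⟨_, fun t ht => by
                have ht' : t = x := by simpa using ht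
                have hbx : b ≠ x := fun h => hbn (by rw [h]; simp)
                rw [ht']
                exact cr_dot_pos (a := p b) (fun h => hbx (hgp.inj h))⟩
            | cons e K =>
              exact sp_of_aff hgp (F := fun t => cr r (p b) (p t)) (aff_cr r (p b))
                (cr_self r (p b)) hbn h2 (w := e) (hr e List.mem_cons_self).ne'
          intro z hz v hv hX
          have hge : ∀ t ∈ b :: K, 0 ≤ cr r (p b) (p t) := by
            intro t ht
            rcases List.mem_cons.1 ht with rfl | ht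
            · rw [cr_self]
            · exact (hr t ht).le
          obtain ⟨_, m2, _, _⟩ := sepX (aff_cr r (p b)) (X_comm.1 hX) hra hxneg.le (hge z hz)
            (hge v hv)
          exact hxneg.ne m2
        refine ⟨a :: x :: b :: K, ⟨hfree, k2.1, k1⟩, ⟨?_, k2⟩, ⟨_, Or.inl rfl, k3⟩,
          fun _ => Or.inr ⟨rfl, hsp⟩⟩
        refine sp_perm (fun t ht => ?_) hsp
        rcases List.mem_cons.1 ht with rfl | ht
        · simp
        · exact List.mem_append_left _ ht
      · -- `ρ = b :: ...`
        cases ρ with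
        | nil => simp at k5
        | cons b' ρ =>
        have hb' : b' = b := by simpa using k5
        subst hb'
        have hpm := dis_perm k3
        refine ⟨a :: b' :: ρ, ⟨fun z hz v hv => ?_, k2.1, k1⟩, ⟨?_, k2⟩, ⟨_, Or.inl rfl, k3⟩,
          fun _ => Or.inr ⟨rfl, hsp⟩⟩
        · have hz' : z ∈ (b' :: K) ++ [x] := hpm.mem_iff.2 (List.mem_cons_of_mem _ hz)
          have hv' : v ∈ (b' :: K) ++ [x] := hpm.mem_iff.2 (List.mem_cons_of_mem _ hv)
          exact free hgp (s := a) (a := b') (C := K ++ [x]) hn hp k6 hsp hz' hv'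
        · exact sp_perm (fun t ht => hpm.mem_iff.2 ht) hsp
    · -- `x` first
      obtain ⟨r, hr⟩ := hs.1
      have hxneg : cr r (p a) (p x) < 0 := by
        by_contra h1
        apply hsp
        have h2 : ∀ t ∈ (b :: K) ++ [x], 0 ≤ cr r (p a) (p t) := by
          intro t ht
          rcases List.mem_append.1 ht with ht | ht
          · exact (hr t ht).le
          · rw [List.mem_singleton.1 ht]; exact not_lt.1 h1
        exact sp_of_aff hgp (F := fun t => cr r (p a) (p t)) (aff_cr r (p a))
          (cr_self r (p a)) hab h2 (w := b) (hr b List.mem_cons_self).ne'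
      have hplQ : Plane p (Ed (a :: b :: K)) := by
        refine Plane_mono (fun c d hcd => ?_) hp
        have : Ed ((a :: b :: K) ++ [x]) c d := by
          rcases List.eq_nil_or_concat K with rfl | ⟨K', e, rfl⟩
          · exact ed_cons2.2 ((ed_cons2.1 hcd).imp id (fun h => h.imp id (fun h => h.elim)))
          · rw [List.concat_eq_append] at hcd ⊢
            have h1 : (a :: b :: (K' ++ [e])) ++ [x] = (a :: b :: K') ++ [e, x] := by simp
            rw [h1, ed_snoc2]
            left
            simpa using hcd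
        exact this
      refine ⟨x :: a :: b :: K, ⟨?_, hs.1, fr_of_si hgp _ hnQ hplQ hs⟩, ⟨⟨r, fun t ht => ?_⟩, hs⟩,
        ⟨a :: b :: K, Or.inr rfl, ?_⟩, fun _ => Or.inl ⟨rfl, hsp⟩⟩
      · intro z hz v hv hX
        obtain ⟨m1, _, _, _⟩ := sepX (aff_cr r (p a)) (X_comm.1 hX) hxneg.le
          (by rw [cr_self]) (hr z hz).le (hr v hv).le
        exact hxneg.ne m1
      · rw [cr_sub r (p x) (p t) (p a)]
        rcases List.mem_cons.1 ht with rfl | ht
        · rw [cr_self]; linarith
        · have := hr t ht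
          linarith
      · -- `Dis Q Q`
        have hdd : ∀ L : List α, Dis L L := by
          intro L
          induction L with
          | nil => exact rfl
          | cons y L ih => exact ⟨L, Or.inl rfl, ih⟩
        exact hdd _

end FPW.Dsm
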