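import Pool.Agent.Lib.MP_deef39_co_Dsm.Star

/-! # Repairing a covered vertex -/

set_option autoImplicit false

namespace FPW.Dsm

open FPW

variable {α : Type*} {p : α → ℝ × ℝ}

/-- a segment `s a` whose end points are outside of the hull of a path and which is not crossed by
the path does not meet the hull of the path -/
theorem free2 (hgp : GP p) {s a : α} {C : List α} (hn : (s :: a :: C).Nodup)
    (hp : ∀ c d, Ed C c d → ¬ X p c d s a) (ha : Sp p a C) (hs : Sp p s C) {z v : α}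
    (hz : z ∈ C) (hv : v ∈ C) : ¬ X p z v s a := by
  obtain ⟨r, hr⟩ := ha
  obtain ⟨r', hr'⟩ := hs
  have hsn := (List.nodup_cons.1 hn).1
  have han := (List.nodup_cons.1 (List.nodup_cons.1 hn).2).1
  have hsa : s ≠ a := fun h => hsn (by rw [h]; exact List.mem_cons_self)
  have hsC : ∀ t ∈ C, s ≠ t := fun t ht h => hsn (by rw [h]; exact List.mem_cons_of_mem _ ht)
  have haC : ∀ t ∈ C, a ≠ t := fun t ht h => han (by rw [h]; exact ht)
  have key : ∀ c ∈ C, ∀ d ∈ C, 0 < o p s a c → o p s a d < 0 →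
      0 < o p c d a * cr r (p a) (p s) ∧ o p c d s * cr r' (p s) (p a) < 0 := by
    intro c hc d hd h1 h2
    have e1 := aff_four (aff_cr (p := p) r' (p s)) s a c d
    have e2 := aff_four (aff_cr (p := p) r (p a)) s a c d
    simp only [cr_self, mul_zero] at e1 e2
    have m1 := mul_pos h1 (hr' d hd)
    have m2 := mul_neg_of_neg_of_pos h2 (hr' c hc)
    have m3 := mul_pos h1 (hr d hd)
    have m4 := mul_neg_of_neg_of_pos h2 (hr c hc)
    constructor <;> linarith
  have main : ∀ z ∈ C, ∀ v ∈ C, 0 < o p s a z → o p s a v < 0 → ¬ X p z v s a := by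
    intro z hz v hv h1 h2 hX
    obtain ⟨k1, k2⟩ := key z hz v hv h1 h2
    obtain ⟨c, d, hcd, h5, h6⟩ := ivt (φ := fun t => o p s a t) C
      (fun t ht => hgp.ne s a t hsa (haC t ht) (hsC t ht)) z hz v hv h1 h2
    obtain ⟨m1, m2⟩ := key c (ed_mem hcd) d (ed_mem' hcd) h5 h6
    refine hp c d hcd ⟨?_, mul_neg_of_pos_of_neg h5 h6⟩
    have h7 := hX.1
    -- signs of `o c d a`, `o c d s` are those of `o z v a`, `o z v s`
    have n1 : 0 < (o p c d a * o p z v a) * (cr r (p a) (p s) * cr r (p a) (p s)) := by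
      have := mul_pos m1 k1
      linarith [this]
    have n2 : 0 < (o p c d s * o p z v s) * (cr r' (p s) (p a) * cr r' (p s) (p a)) := by
      have := mul_pos_of_neg_of_neg m2 k2
      linarith [this]
    have n3 : 0 < o p c d a * o p z v a := by
      by_contra h
      have := mul_nonpos_of_nonpos_of_nonneg (not_lt.1 h)
        (mul_self_nonneg (cr r (p a) (p s)))
      linarith
    have n4 : 0 < o p c d s * o p z v s := by
      by_contra h
      have := mul_nonpos_of_nonpos_of_nonneg (not_lt.1 h)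
        (mul_self_nonneg (cr r' (p s) (p a)))
      linarith
    by_contra h8
    have n5 := mul_pos n3 n4
    have n6 : (o p c d a * o p z v a) * (o p c d s * o p z v s) =
        (o p c d s * o p c d a) * (o p z v s * o p z v a) := by ring
    rw [n6] at n5
    have := mul_nonpos_of_nonneg_of_nonpos (not_lt.1 h8) h7.le
    linarith
  intro hX
  rcases mul_neg_iff.1 hX.2 with ⟨h8, h9⟩ | ⟨h8, h9⟩
  · exact main z hz v hv h8 h9 hX
  · exact main v hv z hz h9 h8 (X_sw1.1 hX)

/-- edges of a prefix outside of the hull of `s :: T` -/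
theorem pre_out (hgp : GP p) {s : α} {T : List α} (hsT : Sp p s T) : ∀ V : List α,
    (V ++ s :: T).Nodup → Plane p (Ed (V ++ s :: T)) → (∀ v ∈ V, Sp p v (s :: T)) →
    ∀ c d, Ed (V ++ [s]) c d → ∀ z ∈ s :: T, ∀ w ∈ s :: T, ¬ X p z w c d
  | [], _, _, _, _, _, h, _, _, _, _ => h.elim
  | [v], hn, hp, hV, c, d, h, z, hz, w, hw => by
    have h1 : ¬ X p z w v s := by
      intro hX
      obtain ⟨_, _, _, k4, _, k6⟩ := X_ne hX
      refine free2 hgp (C := T) hn ?_ hsT
        (sp_perm (fun t ht => List.mem_cons_of_mem _ ht) (hV v List.mem_cons_self))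
        ((List.mem_cons.1 hz).resolve_left k4) ((List.mem_cons.1 hw).resolve_left k6) hX
      intro c d hcd
      refine hp c d v s ?_ (ed_cons2.2 (Or.inl ⟨rfl, rfl⟩))
      refine ed_cons2.2 (Or.inr (Or.inr ?_))
      cases T with
      | nil => exact hcd.elim
      | cons y L => exact ed_cons2.2 (Or.inr (Or.inr hcd))
    rcases ed_cons2.1 h with ⟨rfl, rfl⟩ | ⟨rfl, rfl⟩ | h
    · exact h1
    · exact fun hX => h1 (X_sw2.1 hX)
    · exact h.elim
  | v :: v' :: V, hn, hp, hV, c, d, h, z, hz, w, hw => by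
    have h1 : ¬ X p z w v v' := by
      refine free2 hgp (C := s :: T) ?_ ?_ (hV v' (by simp)) (hV v (by simp)) hz hw
      · refine hn.sublist ?_
        exact List.Sublist.cons_cons v (List.Sublist.cons_cons v' (List.sublist_append_right _ _))
      · intro c d hcd
        refine hp c d v v' ?_ (ed_cons2.2 (Or.inl ⟨rfl, rfl⟩))
        have h2 : v :: v' :: V ++ s :: T = (v :: v' :: V) ++ s :: T := rfl
        rw [h2]
        exact ed_mid.2 (Or.inr hcd)
    rcases ed_cons2.1 h with ⟨rfl, rfl⟩ | ⟨rfl, rfl⟩ | h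
    · exact h1
    · exact fun hX => h1 (X_sw2.1 hX)
    · exact pre_out hgp hsT (v' :: V) (List.nodup_cons.1 hn).2 (plane_tail hp)
        (fun u hu => hV u (List.mem_cons_of_mem _ hu)) c d h z hz w hw

theorem repair [Finite α] (hgp : GP p) {V' Q : List α} {s x : α}
    (hn' : (V' ++ s :: x :: Q).Nodup) (hp' : Plane p (Ed (V' ++ s :: x :: Q))) (hs : SI p Q)
    (h0 : ¬ Sp p x Q) (hsp : Sp p s (x :: Q)) (hV : ∀ v ∈ V', Sp p v (s :: x :: Q)) :
    ∃ ρ : List α, ρ.Perm (x :: Q) ∧ SI p ρ ∧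
      Reach p NO (V' ++ s :: x :: Q) (V' ++ s :: ρ) := by
  have hVe : (V' ++ [s]) ++ x :: Q = V' ++ s :: x :: Q := by simp
  have hn : ((V' ++ [s]) ++ x :: Q).Nodup := by rw [hVe]; exact hn'
  have hp : Plane p (Ed ((V' ++ [s]) ++ x :: Q)) := by rw [hVe]; exact hp'
  -- the split of `Q`
  obtain ⟨W, b, B, hQd, h2, h3⟩ := split_sp Q h0
  obtain ⟨a, m₀, ham⟩ : ∃ a m₀, W ++ [b] = a :: m₀ := by
    cases W with
    | nil => exact ⟨b, [], rfl⟩
    | cons w W => exact ⟨w, W ++ [b], rfl⟩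
  have hnQ : Q.Nodup := (List.nodup_cons.1 (List.nodup_append.1 hn).2.1).2
  have hxQ : x ∉ Q := (List.nodup_cons.1 (List.nodup_append.1 hn).2.1).1
  cases B with
  | nil =>
    exact absurd (sp_single hgp (fun h => hxQ (by rw [hQd, h]; simp))) h2
  | cons c B' =>
  have hQ2 : Q = (a :: m₀) ++ c :: B' := by rw [hQd, ← ham]; simp
  have hQ3 : Q = a :: (m₀ ++ c :: B') := hQ2
  have hplQ : Plane p (Ed Q) := by
    have h4 : Plane p (Ed (x :: Q)) := by
      refine Plane_mono (fun c d hcd => ed_mid.2 (Or.inr hcd)) hp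
    exact plane_tail h4
  have hfrQ : Fr p Q := fr_of_si hgp _ hnQ hplQ hs
  have hedB : ∀ u v, Ed (c :: B') u v → Ed Q u v := by
    intro u v huv
    rw [hQ2]
    exact ed_mid.2 (Or.inr huv)
  have hBQ : ∀ t ∈ c :: B', t ∈ Q := by
    intro t ht
    rw [hQ2]
    exact List.mem_append_right _ ht
  have hfrQ2 : Fr p ((a :: m₀) ++ c :: B') := by rw [← hQ2]; exact hfrQ
  have hsQ3 : SI p (a :: (m₀ ++ c :: B')) := by rw [← hQ3]; exact hs
  have hfrQd : Fr p (W ++ b :: c :: B') := by rw [← hQd]; exact hfrQ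
  have hsQd : SI p (W ++ b :: c :: B') := by rw [← hQd]; exact hs
  have hnQd : (W ++ b :: c :: B').Nodup := by rw [← hQd]; exact hnQ
  have hxQd : x ∉ W ++ b :: c :: B' := by rw [← hQd]; exact hxQ
  have hsB : SI p (b :: c :: B') := si_sublist (List.sublist_append_right _ _) hsQd
  have hfrB : Fr p (b :: c :: B') := fr_suffix _ hfrQd
  have hnB : (b :: c :: B').Nodup := (List.nodup_append.1 hnQd).2.1
  have hxB : x ∉ b :: c :: B' := fun h => hxQd (List.mem_append_right _ h)
  have hbx : b ≠ x := fun h => hxB (by rw [h]; exact List.mem_cons_self)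
  have hcx : c ≠ x := fun h => hxB (by rw [h]; simp)
  have hbc : b ≠ c := fun h => (List.nodup_cons.1 hnB).1 (by rw [h]; exact List.mem_cons_self)
  have hxB' : x ∉ c :: B' := fun h => hxB (List.mem_cons_of_mem _ h)
  have haQ : a ∈ Q := by rw [hQ3]; exact List.mem_cons_self
  have hxa : x ≠ a := fun h => hxQ (h ▸ haQ)
  have hsn : (s :: x :: Q).Nodup := by
    have h4 : (V' ++ [s]) ++ x :: Q = V' ++ s :: x :: Q := by simp
    rw [h4] at hn
    exact (List.nodup_append.1 hn).2.1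
  -- the edge `x a`
  obtain ⟨r, hr⟩ := hsQ3.1
  have hcm : c ∈ m₀ ++ c :: B' := by simp
  have hQnn : ∀ t ∈ Q, 0 ≤ cr r (p a) (p t) := by
    intro t ht
    rw [hQ3] at ht
    rcases List.mem_cons.1 ht with rfl | ht
    · rw [cr_self]
    · exact (hr t ht).le
  have hrx : 0 < cr r (p a) (p x) := pos_of_not_sp hgp h0 hxQ hQnn (w := c) (hr c hcm).ne'
  have hana : a ∉ m₀ ++ c :: B' := by
    have h4 := hnQ
    rw [hQ3] at h4
    exact (List.nodup_cons.1 h4).1
  have hfxa : ∀ z ∈ c :: B', ∀ v ∈ c :: B', ¬ X p z v x a := by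
    intro z hz v hv hX
    refine free' hgp (s := a) (a := x) (C := c :: B') ?_ ?_ h3 ⟨r, fun t ht => ?_⟩ hz hv
      (X_sw2.1 hX)
    · refine List.nodup_cons.2 ⟨fun h => ?_, List.nodup_cons.2 ⟨hxB',
        (List.nodup_cons.1 hnB).2⟩⟩
      rcases List.mem_cons.1 h with h | h
      · exact hxa h.symm
      · exact hana (List.mem_append_right _ h)
    · intro u v huv
      refine hp u v a x ?_ ?_
      · refine ed_mid.2 (Or.inr ?_)
        have h4 := hedB u v huv
        rw [hQ3] at h4 ⊢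
        exact ed_cons2.2 (Or.inr (Or.inr h4))
      · refine ed_mid.2 (Or.inr ?_)
        rw [hQ3]
        exact ed_cons2.2 (Or.inr (Or.inl ⟨rfl, rfl⟩))
    · rcases List.mem_cons.1 ht with rfl | ht
      · exact hrx
      · exact hr t (List.mem_append_right _ ht)
  -- the new end `e`
  set σ : ℝ := o p b c x with hσd
  have hσ : σ ≠ 0 := hgp.ne b c x hbc hcx hbx
  obtain ⟨e, he, hext⟩ := ang_exists hgp (List.cons_ne_nil c B') hxB' h3 hσ
  have hσσ : 0 < σ * σ := mul_self_pos.2 hσ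
  have hec : c ≠ e := by
    intro hce
    rw [← hce] at hext
    apply h2
    have hFb : -(σ * o p x c b) = σ * σ := by
      rw [hσd]; unfold o; ring
    refine sp_of_aff hgp (F := fun t => -(σ * o p x c t)) (aff_o x c σ) ?_ hxB ?_ (w := b) ?_
    · show -(σ * o p x c x) = 0
      unfold o; ring
    · intro t ht
      show 0 ≤ -(σ * o p x c t)
      rcases List.mem_cons.1 ht with rfl | ht
      · rw [hFb]; exact hσσ.le
      · by_cases htc : t = c
        · rw [htc]
          have : o p x c c = 0 := by unfold o; ring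
          rw [this]; simp
        · linarith [hext t ht htc]
    · show -(σ * o p x c b) ≠ 0
      rw [hFb]; exact hσσ.ne'
  have hexc : σ * o p x e c < 0 := hext c List.mem_cons_self hec
  obtain ⟨rc, hrc⟩ := hsB.2.1
  have hcre : ∀ t, cr (-(σ * ((p e).1 - (p x).1)), -(σ * ((p e).2 - (p x).2))) (p e) (p t) =
      -(σ * o p x e t) := by
    intro t; unfold cr o; ring
  obtain ⟨M, m1, m2, m3, _⟩ := sort2 hgp (List.nodup_cons.1 hnB).2 (a := c) (a' := e)
    List.mem_cons_self he hec (r := rc)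
    (r' := (-(σ * ((p e).1 - (p x).1)), -(σ * ((p e).2 - (p x).2))))
    (fun t ht htc => hrc t ((List.mem_cons.1 ht).resolve_left htc))
    (fun t ht hte => by rw [hcre]; linarith [hext t ht hte])
  have mpl : Plane p (Ed (c :: (M ++ [e]))) := m2 _ (List.Sublist.refl _)
  have s1 : Reach p NO (c :: B') (c :: (M ++ [e])) :=
    kkr hgp _ c B' (M ++ [e]) rfl (List.nodup_cons.1 hnB).2 ((List.perm_cons c).1 m1)
      (plane_of_fr _ hfrB.2.2) mpl hsB.2 m3
  have heQ : e ∈ Q := hBQ e he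
  -- the prefix `V' ++ [s]`
  have hppf : ∀ u v, Ed (V' ++ [s]) u v → ∀ z ∈ s :: x :: Q, ∀ w ∈ s :: x :: Q,
      ¬ X p z w u v := pre_out hgp hsp V' hn' hp' hV
  have hfsx : ∀ z ∈ c :: B', ∀ w ∈ c :: B', ¬ X p z w s x := by
    intro z hz w hw
    refine free2 hgp (C := c :: B') ?_ ?_ h3
      (sp_perm (fun t ht => List.mem_cons_of_mem _ (hBQ t ht)) hsp) hz hw
    · refine List.nodup_cons.2 ⟨fun h => ?_, List.nodup_cons.2 ⟨hxB', (List.nodup_cons.1 hnB).2⟩⟩
      rcases List.mem_cons.1 h with h | h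
      · exact (List.nodup_cons.1 hsn).1 (by rw [h]; exact List.mem_cons_self)
      · exact (List.nodup_cons.1 hsn).1 (List.mem_cons_of_mem _ (hBQ s h))
    · intro u v huv
      refine hp' u v s x (ed_mid.2 (Or.inr ?_))
        (ed_mid.2 (Or.inr (ed_cons2.2 (Or.inl ⟨rfl, rfl⟩))))
      refine ed_cons2.2 (Or.inr (Or.inr ?_))
      have h4 := hedB u v huv
      rw [hQ3] at h4 ⊢
      exact ed_cons2.2 (Or.inr (Or.inr h4))
  have s2 : Reach p NO (((V' ++ [s]) ++ x :: (a :: m₀)) ++ c :: B')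
      (((V' ++ [s]) ++ x :: (a :: m₀)) ++ c :: (M ++ [e])) := by
    refine reach_pre ?_ s1
    intro u v huv z hz w hw
    have h4 : ((V' ++ [s]) ++ x :: (a :: m₀)) ++ [c] = (V' ++ [s]) ++ x :: ((a :: m₀) ++ [c]) := by
      simp
    rw [h4] at huv
    rcases ed_mid.1 huv with huv | huv
    · have h5 : (V' ++ [s]) ++ [x] = V' ++ [s, x] := by simp
      rw [h5, ed_snoc2] at huv
      have hin : ∀ t ∈ c :: B', t ∈ s :: x :: Q := fun t ht =>
        List.mem_cons_of_mem _ (List.mem_cons_of_mem _ (hBQ t ht))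
      rcases huv with huv | ⟨rfl, rfl⟩ | ⟨rfl, rfl⟩
      · exact hppf u v huv z (hin z hz) w (hin w hw)
      · exact hfsx z hz w hw
      · exact fun hX => hfsx z hz w hw (X_sw2.1 hX)
    · rcases ed_cons2.1 huv with ⟨rfl, rfl⟩ | ⟨rfl, rfl⟩ | huv
      · exact hfxa z hz w hw
      · exact fun hX => hfxa z hz w hw (X_sw2.1 hX)
      · exact pre_free (a :: m₀) hfrQ2 u v huv z hz w hw
  -- rotation of `e` at `x`
  have hm2 : ∀ u v, Ed ((a :: m₀) ++ c :: (M ++ [e])) u v → ¬ X p x e u v := by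
    intro u v huv hX
    rcases ed_mid.1 huv with huv | huv
    · have h6 : (a :: m₀) ++ [c] = W ++ [b, c] := by rw [← ham]; simp
      rw [h6, ed_snoc2] at huv
      have hbar : ¬ X p x e b c := by
        intro hX'
        obtain ⟨n1, n2⟩ := hX'
        have n3 : 0 < σ * o p x e b := by
          by_contra h7
          have h8 := mul_nonneg_of_nonpos_of_nonpos (not_lt.1 h7) hexc.le
          have h9 : (σ * o p x e b) * (σ * o p x e c) = (σ * σ) * (o p x e b * o p x e c) := by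
            ring
          rw [h9] at h8
          have h10 := mul_neg_of_pos_of_neg hσσ n1
          linarith
        have n4 : σ * o p b c e = σ * σ + -(σ * o p x e c) + σ * o p x e b := by
          rw [hσd]; unfold o; ring
        have n5 : o p b c x * o p b c e = σ * o p b c e := rfl
        rw [n5, n4] at n2
        linarith
      rcases huv with huv | ⟨rfl, rfl⟩ | ⟨rfl, rfl⟩
      · exact pre_hull hgp W hnQd hxQd hfrQd hsQd h2 e he u v huv hX
      · exact hbar hX
      · exact hbar (X_sw2.1 hX)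
    · have hge : ∀ t ∈ c :: B', 0 ≤ -(σ * o p x e t) := by
        intro t ht
        by_cases hte : t = e
        · rw [hte]
          have : o p x e e = 0 := by unfold o; ring
          rw [this]; simp
        · linarith [hext t ht hte]
      have hsm : u ∈ c :: B' := m1.mem_iff.1 (ed_mem huv)
      have htm : v ∈ c :: B' := m1.mem_iff.1 (ed_mem' huv)
      obtain ⟨_, _, n3, n4⟩ := sepX (aff_o x e σ) hX
        (by show -(σ * o p x e x) ≤ 0; unfold o; ring_nf; exact le_rfl)
        (by show -(σ * o p x e e) ≤ 0; unfold o; ring_nf; exact le_rfl)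
        (hge u hsm) (hge v htm)
      have hz : ∀ t ∈ c :: B', -(σ * o p x e t) = 0 → t = e := by
        intro t ht h7
        by_contra hte
        linarith [hext t ht hte]
      exact (X_ne hX).2.1 ((hz u hsm n3).trans (hz v htm n4).symm)
  have hxm : x ∈ s :: x :: Q := by simp
  have hem : e ∈ s :: x :: Q := List.mem_cons_of_mem _ (List.mem_cons_of_mem _ heQ)
  have s3 : Rot p NO ((V' ++ [s]) ++ x :: ((a :: m₀ ++ c :: M) ++ [e]))
      ((V' ++ [s]) ++ x :: e :: (a :: m₀ ++ c :: M).reverse) := by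
    refine ⟨x, e, ⟨V' ++ [s], a :: m₀ ++ c :: M, rfl, rfl⟩, ?_⟩
    intro u v huv hX
    rcases ed_mid.1 (eo_no.1 huv) with huv | huv
    · have h5 : (V' ++ [s]) ++ [x] = V' ++ [s, x] := by simp
      rw [h5, ed_snoc2] at huv
      rcases huv with huv | ⟨rfl, rfl⟩ | ⟨rfl, rfl⟩
      · exact hppf u v huv e hem x hxm hX
      · exact not_X_of_eq4 hX
      · exact not_X_of_eq3 hX
    · have h5 : x :: ((a :: m₀ ++ c :: M) ++ [e]) = x :: a :: (m₀ ++ c :: (M ++ [e])) := by simp
      rw [h5] at huv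
      rcases ed_cons2.1 huv with ⟨rfl, rfl⟩ | ⟨rfl, rfl⟩ | huv
      · exact not_X_of_eq3 hX
      · exact not_X_of_eq4 hX
      · exact hm2 u v huv (X_sw1.1 hX)
  -- the segment `s a`
  have hsa : s ≠ a := fun h => (List.nodup_cons.1 hsn).1 (h ▸ List.mem_cons_of_mem _ haQ)
  have hstar : ∀ z ∈ Q, ∀ v ∈ Q, ¬ X p z v s a := by
    intro z hz v hv
    have h5 : (s :: x :: a :: (m₀ ++ c :: B')).Nodup := by rw [← hQ3]; exact hsn
    have h6 : Plane p (Ed (s :: x :: a :: (m₀ ++ c :: B'))) := by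
      rw [← hQ3]
      rw [hVe] at hp
      exact Plane_mono (fun c d hcd => ed_mid.2 (Or.inr hcd)) hp
    rw [hQ3] at hz hv
    exact star hgp h5 h6 hsQ3.1 (by rw [← hQ3]; exact hsp) (by rw [← hQ3]; exact h0) hz hv
  obtain ⟨r₁, hr₁, hr₁s⟩ := sep_line hgp (s := s) (a := a) (C := m₀ ++ c :: B') (by
      refine List.nodup_cons.2 ⟨fun h => (List.nodup_cons.1 hsn).1 ?_, by rw [← hQ3]; exact hnQ⟩
      rw [hQ3]
      exact List.mem_cons_of_mem _ h)
    (fun z hz v hv => hstar z (by rw [hQ3]; exact List.mem_cons_of_mem _ hz) v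
      (by rw [hQ3]; exact List.mem_cons_of_mem _ hv)) hsQ3.1
    (by rw [← hQ3]; exact sp_perm (fun t ht => List.mem_cons_of_mem _ ht) hsp)
  have hnn1 : ∀ t ∈ Q, 0 ≤ cr r₁ (p a) (p t) := by
    intro t ht
    rw [hQ3] at ht
    rcases List.mem_cons.1 ht with rfl | ht
    · rw [cr_self]
    · exact (hr₁ t ht).le
  have hx1 : 0 < cr r₁ (p a) (p x) :=
    pos_of_not_sp hgp h0 hxQ hnn1 (w := c) (hr₁ c hcm).ne'
  have hsa2 : ∀ z ∈ x :: Q, ∀ v ∈ x :: Q, ¬ X p s a z v := by
    intro z hz v hv hX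
    have hnn2 : ∀ t ∈ x :: Q, 0 ≤ cr r₁ (p a) (p t) := by
      intro t ht
      rcases List.mem_cons.1 ht with rfl | ht
      · exact hx1.le
      · exact hnn1 t ht
    obtain ⟨_, _, n3, n4⟩ := sepX (aff_cr r₁ (p a)) hX hr₁s (by rw [cr_self]) (hnn2 z hz)
      (hnn2 v hv)
    have hz0 : ∀ t ∈ x :: Q, cr r₁ (p a) (p t) = 0 → t = a := by
      intro t ht h7
      rcases List.mem_cons.1 ht with rfl | ht
      · exact absurd h7 hx1.ne'
      · rw [hQ3] at ht
        rcases List.mem_cons.1 ht with h8 | h8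
        · exact h8
        · exact absurd h7 (hr₁ t h8).ne'
    exact (X_ne hX).2.1 ((hz0 z hz n3).trans (hz0 v hv n4).symm)
  -- rotation of `a` at `s`
  have hpermQ : (a :: (m₀ ++ c :: (M ++ [e]))).Perm Q := by
    rw [hQ3]
    exact List.Perm.cons a (List.Perm.append_left m₀ m1)
  have e4 : (V' ++ [s]) ++ x :: e :: (a :: m₀ ++ c :: M).reverse =
      V' ++ s :: ((x :: e :: (m₀ ++ c :: M).reverse) ++ [a]) := by simp
  have e5 : V' ++ s :: a :: (x :: e :: (m₀ ++ c :: M).reverse).reverse =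
      ((V' ++ [s]) ++ (a :: (m₀ ++ c :: (M ++ [e])))) ++ [x] := by simp
  have s4 : Rot p NO ((V' ++ [s]) ++ x :: e :: (a :: m₀ ++ c :: M).reverse)
      (((V' ++ [s]) ++ (a :: (m₀ ++ c :: (M ++ [e])))) ++ [x]) := by
    rw [e4, ← e5]
    refine ⟨s, a, ⟨V', x :: e :: (m₀ ++ c :: M).reverse, rfl, rfl⟩, ?_⟩
    intro u v huv hX
    rcases ed_mid.1 (eo_no.1 huv) with huv | huv
    · exact hppf u v huv a (List.mem_cons_of_mem _ (List.mem_cons_of_mem _ haQ)) s
        List.mem_cons_self hX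
    · rw [List.cons_append] at huv
      rcases ed_cons2.1 huv with ⟨rfl, rfl⟩ | ⟨rfl, rfl⟩ | huv
      · exact not_X_of_eq3 hX
      · exact not_X_of_eq4 hX
      · have h8 : ∀ t, t ∈ x :: (e :: (m₀ ++ c :: M).reverse ++ [a]) → t ∈ x :: Q := by
          intro t ht
          rcases List.mem_cons.1 ht with rfl | ht
          · exact List.mem_cons_self
          · refine List.mem_cons_of_mem _ (hpermQ.mem_iff.1 ?_)
            simp only [List.mem_cons, List.mem_append, List.mem_reverse, List.not_mem_nil,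
              or_false] at ht ⊢
            tauto
        exact hsa2 u (h8 u (ed_mem huv)) v (h8 v (ed_mem' huv)) (X_sw1.1 hX)
  -- assemble
  have e1 : V' ++ s :: x :: Q = ((V' ++ [s]) ++ x :: (a :: m₀)) ++ c :: B' := by
    rw [hQ3]; simp
  have e2 : ((V' ++ [s]) ++ x :: (a :: m₀)) ++ c :: (M ++ [e]) =
      (V' ++ [s]) ++ x :: ((a :: m₀ ++ c :: M) ++ [e]) := by simp
  have s5 : Reach p NO (V' ++ s :: x :: Q)
      (((V' ++ [s]) ++ (a :: (m₀ ++ c :: (M ++ [e])))) ++ [x]) := by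
    rw [e1]
    refine Relation.ReflTransGen.tail (s2.tail ?_) s4
    rw [e2]
    exact s3
  have hpl4 : Plane p (Ed (((V' ++ [s]) ++ (a :: (m₀ ++ c :: (M ++ [e])))) ++ [x])) :=
    u_plane hp' (reach_u s5)
  have hpm4 := reach_perm s5
  have hn4 := hpm4.symm.nodup hn'
  have e6 : ((V' ++ [s]) ++ (a :: (m₀ ++ c :: (M ++ [e])))) ++ [x] =
      V' ++ s :: ((a :: (m₀ ++ c :: (M ++ [e]))) ++ [x]) := by simp
  rw [e6] at hpl4 hn4 s5
  have hpl5 : Plane p (Ed ((a :: (m₀ ++ c :: (M ++ [e]))) ++ [x])) :=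
    plane_tail (Plane_mono (fun c d hcd => ed_mid.2 (Or.inr hcd)) hpl4)
  have hn5 : ((a :: (m₀ ++ c :: (M ++ [e]))) ++ [x]).Nodup :=
    (List.nodup_cons.1 (List.nodup_append.1 hn4).2.1).2
  have hsi5 : SI p (a :: (m₀ ++ c :: (M ++ [e]))) :=
    si_replace (L := c :: B') (L' := c :: (M ++ [e]))
      (fun t ht => m1.mem_iff.1 ht) m3 (a :: m₀) (by rw [← hQ2]; exact hs)
  obtain ⟨ρ, k1, k2, k3, k4⟩ := ins_last_si hgp _ hn5 hpl5 hsi5
  have hpm5 : ((a :: (m₀ ++ c :: (M ++ [e]))) ++ [x]).Perm (x :: Q) :=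
    (List.perm_append_singleton x _).trans (hpermQ.cons x)
  have hρ : ρ.Perm (x :: Q) := (dis_perm k3).symm.trans hpm5
  rcases k4 (List.cons_ne_nil _ _) with ⟨_, k6⟩ | ⟨k5, _⟩
  · exfalso
    apply k6
    refine ⟨r₁, fun t ht => ?_⟩
    have ht' : t ∈ (m₀ ++ c :: (M ++ [e])) ++ [x] := ht
    rcases List.mem_append.1 ht' with ht' | ht'
    · refine hr₁ t ?_
      rcases List.mem_append.1 ht' with h9 | h9
      · exact List.mem_append_left _ h9
      · exact List.mem_append_right _ (m1.mem_iff.1 h9)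
    · rw [List.mem_singleton.1 ht']
      exact hx1
  · cases ρ with
    | nil => simp at k5
    | cons a₁ ρ =>
    have ha₁ : a₁ = a := by simpa using k5
    subst ha₁
    have hfrs : Fr p (s :: a₁ :: ρ) := by
      refine ⟨fun z hz v hv hX => ?_, k2.1, k1⟩
      exact hsa2 z (hρ.mem_iff.1 (List.mem_cons_of_mem _ hz)) v
        (hρ.mem_iff.1 (List.mem_cons_of_mem _ hv)) (X_comm.1 hX)
    refine ⟨a₁ :: ρ, hρ, k2, s5.trans (reach_pre ?_ (reach_dis (a₁ :: ρ) s _ hfrs k3))⟩
    intro u v huv z hz w hw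
    have hin : ∀ t ∈ s :: ((a₁ :: (m₀ ++ c :: (M ++ [e]))) ++ [x]), t ∈ s :: x :: Q := by
      intro t ht
      rcases List.mem_cons.1 ht with rfl | ht
      · exact List.mem_cons_self
      · exact List.mem_cons_of_mem _ (hpm5.mem_iff.1 ht)
    exact hppf u v huv z (hin z hz) w (hin w hw)

/-- every covered vertex is clean: its predecessor `s` is outside of the hull of the later
vertices, and the vertices before `s` are outside of the hull of `s` and the later ones -/
def Cln (p : α → ℝ × ℝ) (l : List α) : Prop :=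
  ∀ (V : List α) (s x : α) (Q : List α), l = V ++ s :: x :: Q → ¬ Sp p x Q →
    Sp p s (x :: Q) ∧ ∀ v ∈ V, Sp p v (s :: x :: Q)

theorem clean_aux [Finite α] (hgp : GP p) {l : List α} (hn : l.Nodup) (hp : Plane p (Ed l))
    (hc : Cln p l) : ∀ (L V : List α), l = V ++ L → V ≠ [] →
      ∃ L' : List α, L'.Perm L ∧ SI p L' ∧ Reach p NO l (V ++ L')
  | [], V, hl, _ => ⟨[], List.Perm.refl _, trivial, by rw [hl]; exact Relation.ReflTransGen.refl⟩
  | x :: Q, V, hl, hV => by
    obtain ⟨Q₁, k1, k2, k3⟩ := clean_aux hgp hn hp hc Q (V ++ [x]) (by rw [hl]; simp) (by simp)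
    have e1 : (V ++ [x]) ++ Q₁ = V ++ x :: Q₁ := by simp
    rw [e1] at k3
    by_cases h0 : Sp p x Q₁
    · exact ⟨x :: Q₁, k1.cons x, ⟨h0, k2⟩, k3⟩
    rcases List.eq_nil_or_concat V with rfl | ⟨V', s, rfl⟩
    · exact absurd rfl hV
    rw [List.concat_eq_append] at hl k3 ⊢
    have e2 : ∀ R : List α, (V' ++ [s]) ++ R = V' ++ s :: R := fun R => by simp
    rw [e2] at hl k3
    have h1 : ¬ Sp p x Q := fun h => h0 (sp_perm (fun t ht => k1.mem_iff.1 ht) h)
    obtain ⟨h2, h3⟩ := hc V' s x Q hl h1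
    have hm : ∀ t ∈ x :: Q₁, t ∈ x :: Q := fun t ht => (k1.cons x).mem_iff.1 ht
    obtain ⟨ρ, m1, m2, m3⟩ := repair hgp ((reach_perm k3).symm.nodup hn)
      (u_plane hp (reach_u k3)) k2 h0 (sp_perm hm h2)
      (fun v hv => sp_perm (fun t ht => by
        rcases List.mem_cons.1 ht with rfl | ht
        · exact List.mem_cons_self
        · exact List.mem_cons_of_mem _ (hm t ht)) (h3 v hv))
    exact ⟨ρ, m1.trans (k1.cons x), m2, by rw [e2]; exact k3.trans m3⟩

/-- clean plane paths are connected to separated ones -/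
theorem clean_list [Finite α] (hgp : GP p) {l : List α} (hn : l.Nodup) (hp : Plane p (Ed l))
    (hc : Cln p l) : ∃ q : List α, q.Perm l ∧ Plane p (Ed q) ∧ SI p q ∧
      Relation.ReflTransGen (U p) l q := by
  cases l with
  | nil => exact ⟨[], List.Perm.refl _, hp, trivial, Relation.ReflTransGen.refl⟩
  | cons x Q =>
    obtain ⟨Q₁, k1, k2, k3⟩ := clean_aux hgp hn hp hc Q [x] rfl (by simp)
    have hn1 := (reach_perm k3).symm.nodup hn
    obtain ⟨q, m1, m2, m3, m4⟩ := ins_head_si hgp (x := x) (Q := Q₁) hn1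
      (u_plane hp (reach_u k3)) k2
    exact ⟨q, m1.trans (k1.cons x), m2, m3, (reach_u k3).trans m4⟩

end FPW.Dsm
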