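import Pool.Agent.Lib.MP_deef39_co_Dsm.Base

/-! # Sweeping by a pencil of lines -/

set_option autoImplicit false

namespace FPW.Dsm

open FPW

variable {α : Type*} {p : α → ℝ × ℝ}

theorem pert_one {a b : ℝ} (ha : 0 < a) : ∃ δ > 0, ∀ ε, 0 < ε → ε ≤ δ → 0 < a + ε * b := by
  have hb : 0 < |b| + 1 := by positivity
  refine ⟨a / (|b| + 1) / 2, by positivity, fun ε h1 h2 => ?_⟩
  have h3 : ε * (|b| + 1) ≤ a / 2 := by
    calc ε * (|b| + 1) ≤ a / (|b| + 1) / 2 * (|b| + 1) := by
          exact mul_le_mul_of_nonneg_right h2 hb.le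
      _ = a / 2 := by field_simp
  have h4 : -(ε * |b|) ≤ ε * b := by
    have := neg_abs_le b
    nlinarith
  nlinarith

theorem pert {x : α} {r r₁ : ℝ × ℝ} (L : List α)
    (h : ∀ t ∈ L, 0 < cr r (p x) (p t) ∨ (cr r (p x) (p t) = 0 ∧ 0 < cr r₁ (p x) (p t))) :
    ∃ δ > 0, ∀ ε, 0 < ε → ε ≤ δ → ∀ t ∈ L, 0 < cr r (p x) (p t) + ε * cr r₁ (p x) (p t) := by
  induction L with
  | nil => exact ⟨1, one_pos, fun _ _ _ t ht => absurd ht List.not_mem_nil⟩
  | cons y L ih =>
    obtain ⟨δ, hδ, h1⟩ := ih (fun t ht => h t (List.mem_cons_of_mem _ ht))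
    obtain ⟨δ', hδ', h2⟩ : ∃ δ' > 0, ∀ ε, 0 < ε → ε ≤ δ' →
        0 < cr r (p x) (p y) + ε * cr r₁ (p x) (p y) := by
      rcases h y List.mem_cons_self with h3 | ⟨h3, h4⟩
      · exact pert_one h3
      · exact ⟨1, one_pos, fun ε h5 _ => by rw [h3, zero_add]; exact mul_pos h5 h4⟩
    refine ⟨min δ δ', lt_min hδ hδ', fun ε h5 h6 t ht => ?_⟩
    rcases List.mem_cons.1 ht with rfl | ht
    · exact h2 ε h5 (h6.trans (min_le_right _ _))
    · exact h1 ε h5 (h6.trans (min_le_left _ _)) t ht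

theorem cr_lin (r r₁ a b : ℝ × ℝ) (ε : ℝ) :
    cr (r.1 + ε * r₁.1, r.2 + ε * r₁.2) a b = cr r a b + ε * cr r₁ a b := by
  unfold cr; ring

/-- if the affine function `F` vanishes at `x`, is nonnegative on `L` and does not vanish
identically, then `x` is separated from `L` -/
theorem sp_of_aff (hgp : GP p) {F : α → ℝ} (hF : Aff p F) {x : α} {L : List α} (hx : F x = 0)
    (hxL : x ∉ L) (h0 : ∀ t ∈ L, 0 ≤ F t) {w : α} (hw : F w ≠ 0) : Sp p x L := by
  obtain ⟨A, B, C, h⟩ := id hF
  have hcr : ∀ t, F t = cr (B, -A) (p x) (p t) := by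
    intro t
    have h1 : F t = F t - F x := by rw [hx, sub_zero]
    rw [h1, h, h]
    unfold cr
    ring
  by_cases hy : ∃ y ∈ L, F y = 0
  · obtain ⟨y, hyL, hFy⟩ := hy
    have hxy : x ≠ y := fun h => hxL (h ▸ hyL)
    have h1 : ∀ t ∈ L, 0 < cr (B, -A) (p x) (p t) ∨ (cr (B, -A) (p x) (p t) = 0 ∧
        0 < cr ((p y).2 - (p x).2, -((p y).1 - (p x).1)) (p x) (p t)) := by
      intro t ht
      rw [← hcr]
      rcases (h0 t ht).lt_or_eq with h2 | h2
      · exact Or.inl h2
      · right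
        refine ⟨h2.symm, ?_⟩
        have hty : t = y := by
          by_contra hty
          have hxt : x ≠ t := fun h => hxL (h ▸ ht)
          have h3 := aff_bary hF x y t w
          rw [hx, hFy, ← h2] at h3
          simp only [mul_zero, add_zero] at h3
          rcases mul_eq_zero.1 h3 with h4 | h4
          · exact hgp.ne x y t hxy (fun h => hty h.symm) hxt h4
          · exact hw h4
        subst hty
        unfold cr
        have hne : (p t).1 ≠ (p x).1 ∨ (p t).2 ≠ (p x).2 := by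
          by_contra hcon
          push Not at hcon
          exact hxy (hgp.inj (Prod.ext hcon.1.symm hcon.2.symm))
        rcases hne with h3 | h3
        · have : 0 < ((p t).1 - (p x).1) * ((p t).1 - (p x).1) :=
            mul_self_pos.2 (sub_ne_zero.2 h3)
          nlinarith [mul_self_nonneg ((p t).2 - (p x).2)]
        · have : 0 < ((p t).2 - (p x).2) * ((p t).2 - (p x).2) :=
            mul_self_pos.2 (sub_ne_zero.2 h3)
          nlinarith [mul_self_nonneg ((p t).1 - (p x).1)]
    obtain ⟨δ, hδ, h2⟩ := pert L h1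
    exact ⟨_, fun t ht => by rw [cr_lin]; exact h2 δ hδ le_rfl t ht⟩
  · push Not at hy
    refine ⟨(B, -A), fun t ht => ?_⟩
    rw [← hcr]
    exact lt_of_le_of_ne (h0 t ht) (hy t ht).symm

/-- a sweep of the list `R`: fractional linear key `f / G` with two points of different key -/
structure Sw (p : α → ℝ × ℝ) (R : List α) (f G : α → ℝ) : Prop where
  af : Aff p f
  aG : Aff p G
  pos : ∀ t ∈ R, 0 < G t
  ne : ∃ a ∈ R, ∃ b ∈ R, f a / G a ≠ f b / G b

theorem sw_F {R : List α} {f G : α → ℝ} (h : Sw p R f G) (c : ℝ) :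
    Aff p (fun t => 1 * f t + (-c) * G t) ∧
      (∀ t ∈ R, (f t / G t ≤ c → 1 * f t + (-c) * G t ≤ 0) ∧
        (c ≤ f t / G t → 0 ≤ 1 * f t + (-c) * G t) ∧
        (c = f t / G t → 1 * f t + (-c) * G t = 0)) ∧
      ∃ w, 1 * f w + (-c) * G w ≠ 0 := by
  refine ⟨aff_comb h.af h.aG _ _, fun t ht => ?_, ?_⟩
  · have hG := h.pos t ht
    refine ⟨fun h1 => ?_, fun h1 => ?_, fun h1 => ?_⟩
    · rw [div_le_iff₀ hG] at h1; linarith
    · rw [le_div_iff₀ hG] at h1; linarith
    · rw [eq_div_iff hG.ne'] at h1; linarith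
  · obtain ⟨a, ha, b, hb, hab⟩ := h.ne
    by_contra hcon
    push Not at hcon
    have k1 : f a / G a = c := by
      rw [div_eq_iff (h.pos a ha).ne']
      linarith [hcon a]
    have k2 : f b / G b = c := by
      rw [div_eq_iff (h.pos b hb).ne']
      linarith [hcon b]
    exact hab (k1.trans k2.symm)

theorem plane_cons2 {x y : α} {L : List α} (hp : Plane p (Ed (y :: L)))
    (h : ∀ c ∈ y :: L, ∀ d ∈ y :: L, ¬ X p x y c d) : Plane p (Ed (x :: y :: L)) := by
  intro a b c d hab hcd hX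
  rcases ed_cons2.1 hab with ⟨rfl, rfl⟩ | ⟨rfl, rfl⟩ | hab'
  · rcases ed_cons2.1 hcd with ⟨rfl, rfl⟩ | ⟨rfl, rfl⟩ | hcd'
    · exact not_X_of_eq1 hX
    · exact not_X_of_eq2 hX
    · exact h c (ed_mem hcd') d (ed_mem' hcd') hX
  · rcases ed_cons2.1 hcd with ⟨rfl, rfl⟩ | ⟨rfl, rfl⟩ | hcd'
    · exact not_X_of_eq2 hX
    · exact not_X_of_eq1 hX
    · exact h c (ed_mem hcd') d (ed_mem' hcd') (X_sw1.1 hX)
  · rcases ed_cons2.1 hcd with ⟨rfl, rfl⟩ | ⟨rfl, rfl⟩ | hcd'
    · exact h a (ed_mem hab') b (ed_mem' hab') (X_comm.1 hX)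
    · exact h a (ed_mem hab') b (ed_mem' hab') (X_sw1.1 (X_comm.1 hX))
    · exact hp a b c d hab' hcd' hX

theorem plane_sw (hgp : GP p) {R : List α} {f G : α → ℝ} (h : Sw p R f G) :
    ∀ Q : List α, (∀ t ∈ Q, t ∈ R) → Q.Nodup → Q.Pairwise (fun x y => f x / G x ≤ f y / G y) →
      Plane p (Ed Q)
  | [], _, _, _ => fun _ _ _ _ h _ => h.elim
  | [_], _, _, _ => fun _ _ _ _ h _ => h.elim
  | x :: y :: L, hR, hn, hs => by
    have hs' := List.pairwise_cons.1 hs
    refine plane_cons2 (plane_sw hgp h (y :: L) (fun t ht => hR t (List.mem_cons_of_mem _ ht))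
      (List.nodup_cons.1 hn).2 hs'.2) ?_
    intro c hc d hd hX
    obtain ⟨hA, hB, w, hw⟩ := sw_F h (f y / G y)
    have hyR := hR y (List.mem_cons_of_mem _ List.mem_cons_self)
    have hge : ∀ t ∈ y :: L, f y / G y ≤ f t / G t := by
      intro t ht
      rcases List.mem_cons.1 ht with rfl | ht
      · exact le_rfl
      · exact (List.pairwise_cons.1 hs'.2).1 t ht
    obtain ⟨k1, k2, k3, k4⟩ := sepX hA hX
      ((hB x (hR x List.mem_cons_self)).1 (hs'.1 y List.mem_cons_self))
      ((hB y hyR).2.2 rfl).le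
      ((hB c (hR c (List.mem_cons_of_mem _ hc))).2.1 (hge c hc))
      ((hB d (hR d (List.mem_cons_of_mem _ hd))).2.1 (hge d hd))
    have h5 := aff_bary hA x y c w
    rw [k1, k2, k3] at h5
    simp only [mul_zero, add_zero] at h5
    have hne := X_ne hX
    rcases mul_eq_zero.1 h5 with h6 | h6
    · exact hgp.ne x y c hne.1 hne.2.2.2.2.1 hne.2.2.1 h6
    · exact hw h6

theorem si_sw (hgp : GP p) {R : List α} {f G : α → ℝ} (h : Sw p R f G) :
    ∀ Q : List α, (∀ t ∈ Q, t ∈ R) → Q.Nodup → Q.Pairwise (fun x y => f x / G x ≤ f y / G y) →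
      SI p Q
  | [], _, _, _ => trivial
  | x :: L, hR, hn, hs => by
    have hs' := List.pairwise_cons.1 hs
    refine ⟨?_, si_sw hgp h L (fun t ht => hR t (List.mem_cons_of_mem _ ht))
      (List.nodup_cons.1 hn).2 hs'.2⟩
    obtain ⟨hA, hB, w, hw⟩ := sw_F h (f x / G x)
    exact sp_of_aff hgp hA ((hB x (hR x List.mem_cons_self)).2.2 rfl) (List.nodup_cons.1 hn).1
      (fun t ht => (hB t (hR t (List.mem_cons_of_mem _ ht))).2.1 (hs'.1 t ht)) hw

/-- for two hull vertices `a, a'` of `R` there is a plane path from `a` to `a'` through `R`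
which is separated in both directions -/
theorem sort2 (hgp : GP p) {R : List α} (hn : R.Nodup) {a a' : α} (ha : a ∈ R) (ha' : a' ∈ R)
    (hne : a ≠ a') {r r' : ℝ × ℝ} (h1 : ∀ t ∈ R, t ≠ a → 0 < cr r (p a) (p t))
    (h2 : ∀ t ∈ R, t ≠ a' → 0 < cr r' (p a') (p t)) :
    ∃ M, (a :: (M ++ [a'])).Perm R ∧
      (∀ N : List α, N.Sublist (a :: (M ++ [a'])) → Plane p (Ed N)) ∧
      SI p (a :: (M ++ [a'])) ∧ SI p (a' :: (M.reverse ++ [a])) := by
  classical
  set f : α → ℝ := fun t => cr r (p a) (p t) with hf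
  set g : α → ℝ := fun t => cr r' (p a') (p t) with hg
  have hfa : f a = 0 := cr_self r (p a)
  have hga' : g a' = 0 := cr_self r' (p a')
  have hf0 : ∀ t ∈ R, 0 ≤ f t := by
    intro t ht
    by_cases h : t = a
    · rw [h, hfa]
    · exact (h1 t ht h).le
  have hg0 : ∀ t ∈ R, 0 ≤ g t := by
    intro t ht
    by_cases h : t = a'
    · rw [h, hga']
    · exact (h2 t ht h).le
  have hpos : ∀ t ∈ R, 0 < 1 * f t + 1 * g t := by
    intro t ht
    by_cases h : t = a
    · have h3 : 0 < g t := h2 t ht (fun h' => hne (h ▸ h'))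
      have := hf0 t ht
      linarith
    · have h3 : 0 < f t := h1 t ht h
      have := hg0 t ht
      linarith
  have hfa' : 0 < f a' := h1 a' ha' (fun h => hne h.symm)
  have hga : 0 < g a := h2 a ha hne
  have haG : Aff p (fun t => 1 * f t + 1 * g t) := aff_comb (aff_cr _ _) (aff_cr _ _) 1 1
  have ka : f a / (1 * f a + 1 * g a) = 0 := by rw [hfa, zero_div]
  have ka' : f a' / (1 * f a' + 1 * g a') = 1 := by
    rw [hga', div_eq_one_iff_eq (by linarith)]; ring
  have hS : Sw p R f (fun t => 1 * f t + 1 * g t) := by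
    refine ⟨aff_cr _ _, haG, hpos, a, ha, a', ha', ?_⟩
    rw [ka, ka']
    exact zero_ne_one
  have hS' : Sw p R g (fun t => 1 * f t + 1 * g t) := by
    refine ⟨aff_cr _ _, haG, hpos, a, ha, a', ha', ?_⟩
    rw [hga', zero_div]
    exact (div_pos hga (hpos a ha)).ne'
  set key : α → ℝ := fun t => f t / (1 * f t + 1 * g t) with hkey
  have kpos : ∀ t ∈ R, t ≠ a → 0 < key t := fun t ht h => div_pos (h1 t ht h) (hpos t ht)
  have klt : ∀ t ∈ R, t ≠ a' → key t < 1 := by
    intro t ht h
    have h3 : 0 < g t := h2 t ht h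
    rw [hkey]
    simp only
    rw [div_lt_one (hpos t ht)]
    linarith
  have kg : ∀ t ∈ R, g t / (1 * f t + 1 * g t) = 1 - key t := by
    intro t ht
    have := hpos t ht
    rw [hkey]
    simp only
    rw [eq_sub_iff_add_eq, ← add_div, div_eq_one_iff_eq this.ne']
    ring
  let Q := R.insertionSort (fun x y => key x ≤ key y)
  have hQp : Q.Perm R := List.perm_insertionSort _ _
  have hQs : Q.Pairwise (fun x y => key x ≤ key y) := by
    have : Std.Total (fun x y : α => key x ≤ key y) := ⟨fun x y => le_total _ _⟩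
    have : IsTrans α (fun x y => key x ≤ key y) := ⟨fun x y z => le_trans⟩
    exact List.pairwise_insertionSort _ _
  have hQn : Q.Nodup := hQp.symm.nodup hn
  have hQR : ∀ t ∈ Q, t ∈ R := fun t ht => hQp.mem_iff.1 ht
  clear_value Q
  cases Q with
  | nil => exact absurd (hQp.mem_iff.2 ha) List.not_mem_nil
  | cons b L =>
    have hba : b = a := by
      by_contra hba
      have h3 : a ∈ L := (List.mem_cons.1 (hQp.mem_iff.2 ha)).resolve_left (fun h => hba h.symm)
      have h4 := (List.pairwise_cons.1 hQs).1 a h3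
      have h5 := kpos b (hQR b List.mem_cons_self) hba
      have h6 : key a = 0 := ka
      linarith
    subst hba
    rcases List.eq_nil_or_concat L with rfl | ⟨M, c, rfl⟩
    · have := hQp.mem_iff.2 ha'
      rw [List.mem_singleton] at this
      exact absurd this.symm hne
    · rw [List.concat_eq_append] at *
      have hca : c = a' := by
        by_contra hca
        have h3 : a' ∈ b :: M := by
          have h4 := hQp.mem_iff.2 ha'
          rw [← List.cons_append, List.mem_append, List.mem_singleton] at h4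
          exact h4.resolve_right (fun h => hca h.symm)
        rw [← List.cons_append] at hQs
        have h4 := (List.pairwise_append.1 hQs).2.2 a' h3 c (by simp)
        have h5 := klt c (hQR c (by simp)) hca
        have h6 : key a' = 1 := ka'
        linarith
      subst hca
      refine ⟨M, hQp, fun N hN => plane_sw hgp hS N (fun t ht => hQR t (hN.subset ht))
        (hQn.sublist hN) (hQs.sublist hN), si_sw hgp hS _ hQR hQn hQs, ?_⟩
      have hrev : (b :: (M ++ [c])).reverse = c :: (M.reverse ++ [b]) := by simp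
      rw [← hrev]
      refine si_sw hgp hS' _ (fun t ht => hQR t (List.mem_reverse.1 ht))
        (List.nodup_reverse.2 hQn) ?_
      rw [List.pairwise_reverse]
      refine hQs.imp_of_mem ?_
      intro x y hx hy hxy
      rw [kg x (hQR x hx), kg y (hQR y hy)]
      linarith

end FPW.Dsm
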