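import Pool.Agent.Lib.MP_deef39_co_Dsm.Two

/-! # The predecessor of the exceptional vertex sees the first vertex of the rest -/

set_option autoImplicit false

namespace FPW.Dsm

open FPW

variable {α : Type*} {p : α → ℝ × ℝ}

theorem aff_oo (a b : α) : Aff p (fun t => o p a b t) :=
  ⟨-((p b).2 - (p a).2), (p b).1 - (p a).1,
    -(((p b).1 - (p a).1) * (p a).2) + ((p b).2 - (p a).2) * (p a).1, fun t => by
      unfold o; ring⟩

theorem ed_all {Φ : α → Prop} : ∀ L : List α, (∀ c d, Ed L c d → Φ d → Φ c) →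
    ∀ t ∈ L, Φ t → ∀ v ∈ L, Φ v
  | [], _, _, ht, _, _, _ => absurd ht List.not_mem_nil
  | [a], _, t, ht, h, v, hv => by
    rw [List.mem_singleton.1 hv, ← List.mem_singleton.1 ht]
    exact h
  | a :: b :: L, hE, t, ht, h, v, hv => by
    have ih := ed_all (Φ := Φ) (b :: L) (fun c d hcd => hE c d (ed_cons2.2 (Or.inr (Or.inr hcd))))
    have hab : Φ a → Φ b := hE b a (ed_cons2.2 (Or.inr (Or.inl ⟨rfl, rfl⟩)))
    have hba : Φ b → Φ a := hE a b (ed_cons2.2 (Or.inl ⟨rfl, rfl⟩))
    have hb : Φ b := by
      rcases List.mem_cons.1 ht with rfl | ht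
      · exact hab h
      · exact ih t ht h b List.mem_cons_self
    rcases List.mem_cons.1 hv with rfl | hv
    · exact hba hb
    · exact ih b List.mem_cons_self hb v hv

theorem star_pos (hgp : GP p) {s x a : α} {Q' : List α} (hsx : s ≠ x) (hsa : s ≠ a) (hxa : x ≠ a)
    (hs : s ∉ Q') (hx : x ∉ Q') (ha : a ∉ Q') {f g : α → ℝ} (hf : Aff p f) (hg : Aff p g)
    (hfa : f a = 0) (hfs : 0 < f s) (hfx : 0 < f x) (hfQ : ∀ t ∈ Q', 0 < f t)
    (hgs : g s = 0) (hgx : 0 < g x) (hga : 0 < g a) (hgQ : ∀ t ∈ Q', 0 < g t)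
    (h1 : ∀ c d, Ed Q' c d → ¬ X p c d s x) (h2 : ∀ c d, Ed Q' c d → ¬ X p c d x a)
    (hD : 0 < o p s a x) {v : α} (hv : v ∈ Q') (hv0 : o p s a v < 0) :
    ∀ t ∈ Q', o p s a t < o p s a x := by
  have hst : ∀ t ∈ Q', s ≠ t := fun t ht h => hs (h ▸ ht)
  have hxt : ∀ t ∈ Q', x ≠ t := fun t ht h => hx (h ▸ ht)
  have hat : ∀ t ∈ Q', a ≠ t := fun t ht h => ha (h ▸ ht)
  have hsum : ∀ t, o p s a t + o p a x t + o p x s t = o p s a x := by
    intro t; unfold o; ring
  have nh : ∀ t ∈ Q', o p s a t ≠ 0 := fun t ht => hgp.ne s a t hsa (hat t ht) (hst t ht)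
  have n1 : ∀ t ∈ Q', o p a x t ≠ 0 := fun t ht => hgp.ne a x t hxa.symm (hxt t ht) (hat t ht)
  have n2 : ∀ t ∈ Q', o p x s t ≠ 0 := fun t ht => hgp.ne x s t hsx.symm (hst t ht) (hxt t ht)
  -- the bad region is closed under path edges
  have key : ∀ c d, Ed Q' c d → (0 < o p s a d ∧ (o p a x d < 0 ∨ o p x s d < 0)) →
      (0 < o p s a c ∧ (o p a x c < 0 ∨ o p x s c < 0)) := by
    intro c d hcd hd
    by_contra hc
    have hcQ := ed_mem hcd
    have hdQ := ed_mem' hcd
    have hcd' : c ≠ d ∨ c = d := (em (c = d)).symm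
    obtain ⟨hd0, hd1⟩ := hd
    have e1 := h1 c d hcd
    have e2 := h2 c d hcd
    have hxs' : ∀ u, o p s x u = - o p x s u := fun u => by unfold o; ring
    have hax' : ∀ u, o p x a u = - o p a x u := fun u => by unfold o; ring
    -- four-point identities
    have i1 := aff_four (aff_oo (p := p) x s) a x c d
    have i2 := aff_four (aff_oo (p := p) s a) a x c d
    have i3 := aff_four (aff_oo (p := p) a x) x s c d
    have i4 := aff_four (aff_oo (p := p) s a) x s c d
    have z1 : o p x s x = 0 := by unfold o; ring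
    have z2 : o p x s a = o p s a x := by unfold o; ring
    have z3 : o p s a a = 0 := by unfold o; ring
    have z4 : o p a x x = 0 := by unfold o; ring
    have z5 : o p a x s = o p s a x := by unfold o; ring
    have z6 : o p s a s = 0 := by unfold o; ring
    rw [z1, z2] at i1
    rw [z3] at i2
    rw [z4, z5] at i3
    rw [z6] at i4
    have X1 : ¬ (o p c d s * o p c d x < 0 ∧ o p x s c * o p x s d < 0) := by
      rintro ⟨k1, k2⟩
      refine e1 ⟨k1, ?_⟩
      rw [hxs', hxs']
      linarith [neg_mul_neg (o p x s c) (o p x s d)]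
    have X2 : ¬ (o p c d x * o p c d a < 0 ∧ o p a x c * o p a x d < 0) := by
      rintro ⟨k1, k2⟩
      refine e2 ⟨k1, ?_⟩
      rw [hax', hax']
      linarith [neg_mul_neg (o p a x c) (o p a x d)]
    by_cases hc0 : 0 < o p s a c
    · -- `c` inside the triangle
      have hc1 : 0 < o p a x c := by
        by_contra h
        exact hc ⟨hc0, Or.inl (lt_of_le_of_ne (not_lt.1 h) (n1 c hcQ))⟩
      have hc2 : 0 < o p x s c := by
        by_contra h
        exact hc ⟨hc0, Or.inr (lt_of_le_of_ne (not_lt.1 h) (n2 c hcQ))⟩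
      rcases lt_or_gt_of_ne (n1 d hdQ) with hd2 | hd2
      · have m1 : 0 < o p a x c * o p s a d - o p a x d * o p s a c := by
          have := mul_pos hc1 hd0
          have := mul_neg_of_neg_of_pos hd2 hc0
          linarith
        have m2 : o p c d a < 0 := by
          by_contra h
          have := mul_nonneg (not_lt.1 h) hD.le
          linarith
        rcases lt_or_gt_of_ne (n2 d hdQ) with hd3 | hd3
        · have m3 : 0 < o p x s c * o p s a d - o p x s d * o p s a c := by
            have := mul_pos hc2 hd0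
            have := mul_neg_of_neg_of_pos hd3 hc0
            linarith
          have m4 : 0 < o p c d s := by
            by_contra h
            have := mul_nonpos_of_nonpos_of_nonneg (not_lt.1 h) hD.le
            linarith
          -- `x` must be on both sides
          have m5 : ¬ 0 < o p c d x := fun h =>
            X2 ⟨mul_neg_of_pos_of_neg h m2, mul_neg_of_pos_of_neg hc1 hd2⟩
          have m6 : ¬ o p c d x < 0 := fun h =>
            X1 ⟨mul_neg_of_pos_of_neg m4 h, mul_neg_of_pos_of_neg hc2 hd3⟩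
          have hne : c ≠ d := fun h => by rw [h] at hc1; linarith
          exact (hgp.ne c d x hne (hxt d hdQ).symm (hxt c hcQ).symm)
            (le_antisymm (not_lt.1 m5) (not_lt.1 m6))
        · have m3 : 0 < o p a x c * o p x s d - o p a x d * o p x s c := by
            have := mul_pos hc1 hd3
            have := mul_neg_of_neg_of_pos hd2 hc2
            linarith
          have m4 : 0 < o p c d x := by
            by_contra h
            have := mul_nonpos_of_nonpos_of_nonneg (not_lt.1 h) hD.le
            linarith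
          exact X2 ⟨mul_neg_of_pos_of_neg m4 m2, mul_neg_of_pos_of_neg hc1 hd2⟩
      · have hd3 : o p x s d < 0 := hd1.resolve_left (fun h => by linarith)
        have m1 : 0 < o p x s c * o p a x d - o p x s d * o p a x c := by
          have := mul_pos hc2 hd2
          have := mul_neg_of_neg_of_pos hd3 hc1
          linarith
        have m2 : o p c d x < 0 := by
          by_contra h
          have := mul_nonneg (not_lt.1 h) hD.le
          linarith
        have m3 : 0 < o p x s c * o p s a d - o p x s d * o p s a c := by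
          have := mul_pos hc2 hd0
          have := mul_neg_of_neg_of_pos hd3 hc0
          linarith
        have m4 : 0 < o p c d s := by
          by_contra h
          have := mul_nonpos_of_nonpos_of_nonneg (not_lt.1 h) hD.le
          linarith
        exact X1 ⟨mul_neg_of_pos_of_neg m4 m2, mul_neg_of_pos_of_neg hc2 hd3⟩
    · -- `c` on the other side of the line `s a`
      have hc0' : o p s a c < 0 := lt_of_le_of_ne (not_lt.1 hc0) (nh c hcQ)
      have hgc := hgQ c hcQ
      have hfc := hfQ c hcQ
      have hgd := hgQ d hdQ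
      have hfd := hfQ d hdQ
      -- `c` is on the inner side of the lines `x s` and `a x`
      have hc2 : 0 < o p x s c := by
        have j := aff_bary hg s a x c
        rw [hgs] at j
        -- o s a x * g c = o a x c * g s + o x s c * g a + o s a c * g x
        by_contra h
        have k1 := mul_nonpos_of_nonpos_of_nonneg (not_lt.1 h) hga.le
        have k2 := mul_neg_of_neg_of_pos hc0' hgx
        have k3 := mul_pos hD hgc
        linarith
      have hc1 : 0 < o p a x c := by
        have j := aff_bary hf s a x c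
        rw [hfa] at j
        by_contra h
        have k1 := mul_nonpos_of_nonpos_of_nonneg (not_lt.1 h) hfs.le
        have k2 := mul_neg_of_neg_of_pos hc0' hfx
        have k3 := mul_pos hD hfc
        linarith
      have l1 := aff_four hg s a c d
      have l2 := aff_four hf s a c d
      rw [hgs] at l1
      rw [hfa] at l2
      have m1 : 0 < o p c d s := by
        by_contra h
        have k1 := mul_nonpos_of_nonpos_of_nonneg (not_lt.1 h) hga.le
        have k2 := mul_neg_of_neg_of_pos hc0' hgd
        have k3 := mul_pos hd0 hgc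
        linarith
      have m2 : o p c d a < 0 := by
        by_contra h
        have k1 := mul_nonneg (not_lt.1 h) hfs.le
        have k2 := mul_neg_of_neg_of_pos hc0' hfd
        have k3 := mul_pos hd0 hfc
        linarith
      have hne : c ≠ d := fun h => by rw [h] at hc0'; linarith
      rcases lt_or_gt_of_ne (hgp.ne c d x hne (hxt d hdQ).symm (hxt c hcQ).symm) with m3 | m3
      · -- `x` on the side of `a`
        have m4 : ¬ o p x s d < 0 := fun h =>
          X1 ⟨mul_neg_of_pos_of_neg m1 m3, mul_neg_of_pos_of_neg hc2 h⟩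
        have m5 : 0 < o p x s d := lt_of_le_of_ne (not_lt.1 m4) (n2 d hdQ).symm
        have m6 : o p a x d < 0 := hd1.resolve_right m4
        have k1 := mul_pos hc1 m5
        have k2 := mul_neg_of_neg_of_pos m6 hc2
        have k3 := mul_neg_of_neg_of_pos m3 hD
        linarith
      · have m4 : ¬ o p a x d < 0 := fun h =>
          X2 ⟨mul_neg_of_pos_of_neg m3 m2, mul_neg_of_pos_of_neg hc1 h⟩
        have m5 : 0 < o p a x d := lt_of_le_of_ne (not_lt.1 m4) (n1 d hdQ).symm
        have m6 : o p x s d < 0 := hd1.resolve_left m4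
        have k1 := mul_pos hc2 m5
        have k2 := mul_neg_of_neg_of_pos m6 hc1
        have k3 := mul_pos m3 hD
        linarith
  intro t ht
  by_contra hcon
  have h3 := not_lt.1 hcon
  have h4 := hsum t
  have hbad : 0 < o p s a t ∧ (o p a x t < 0 ∨ o p x s t < 0) := by
    refine ⟨by linarith, ?_⟩
    by_contra h5
    push Not at h5
    have h6 : 0 < o p a x t := lt_of_le_of_ne h5.1 (n1 t ht).symm
    linarith [h5.2]
  have h7 := ed_all (Φ := fun u => 0 < o p s a u ∧ (o p a x u < 0 ∨ o p x s u < 0)) Q' key t ht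
    hbad v hv
  linarith [h7.1]

theorem aff_mir {F : α → ℝ} (h : Aff p F) : Aff (mir p) F := by
  obtain ⟨A, B, C, h⟩ := h
  exact ⟨B, A, C, fun t => by rw [h]; unfold mir; ring⟩

/-- the predecessor `s` of the exceptional vertex `x` sees the first vertex `a` of the rest -/
theorem star [Finite α] (hgp : GP p) {s x a : α} {Q' : List α} (hn : (s :: x :: a :: Q').Nodup)
    (hp : Plane p (Ed (s :: x :: a :: Q'))) (ha : Sp p a Q') (hs : Sp p s (x :: a :: Q'))
    (hx : ¬ Sp p x (a :: Q')) {z v : α} (hz : z ∈ a :: Q') (hv : v ∈ a :: Q') :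
    ¬ X p z v s a := by
  intro hX
  obtain ⟨_, _, k3, k4, k5, k6⟩ := X_ne hX
  have hz' : z ∈ Q' := (List.mem_cons.1 hz).resolve_left k4
  have hv' : v ∈ Q' := (List.mem_cons.1 hv).resolve_left k6
  obtain ⟨r, hr⟩ := ha
  obtain ⟨r', hr'⟩ := hs
  have hsn := (List.nodup_cons.1 hn).1
  have hxn := (List.nodup_cons.1 (List.nodup_cons.1 hn).2).1
  have han := (List.nodup_cons.1 (List.nodup_cons.1 (List.nodup_cons.1 hn).2).2).1
  have hsx : s ≠ x := fun h => hsn (by rw [h]; exact List.mem_cons_self)
  have hsa : s ≠ a := fun h => hsn (by rw [h]; simp)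
  have hxa : x ≠ a := fun h => hxn (by rw [h]; exact List.mem_cons_self)
  have hsQ : s ∉ Q' := fun h => hsn (by simp [h])
  have hxQ : x ∉ Q' := fun h => hxn (by simp [h])
  have hed : ∀ c d, Ed Q' c d → Ed (s :: x :: a :: Q') c d := by
    intro c d hcd
    refine ed_cons2.2 (Or.inr (Or.inr (ed_cons2.2 (Or.inr (Or.inr ?_)))))
    cases Q' with
    | nil => exact hcd.elim
    | cons y L => exact ed_cons2.2 (Or.inr (Or.inr hcd))
  have h1 : ∀ c d, Ed Q' c d → ¬ X p c d s x := fun c d hcd =>
    hp c d s x (hed c d hcd) (ed_cons2.2 (Or.inl ⟨rfl, rfl⟩))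
  have h2 : ∀ c d, Ed Q' c d → ¬ X p c d x a := fun c d hcd =>
    hp c d x a (hed c d hcd) (ed_cons2.2 (Or.inr (Or.inr (ed_cons2.2 (Or.inl ⟨rfl, rfl⟩)))))
  have hfx : 0 < cr r (p a) (p x) := by
    refine pos_of_not_sp hgp hx hxn ?_ (w := z) (hr z hz').ne'
    intro t ht
    rcases List.mem_cons.1 ht with rfl | ht
    · rw [cr_self]
    · exact (hr t ht).le
  have hgx : 0 < cr r' (p s) (p x) := hr' x List.mem_cons_self
  have hga : 0 < cr r' (p s) (p a) := hr' a (by simp)
  have hgQ : ∀ t ∈ Q', 0 < cr r' (p s) (p t) := fun t ht => hr' t (by simp [ht])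
  have hff := aff_cr (p := p) r (p a)
  have hgg := aff_cr (p := p) r' (p s)
  -- sign of `f s`
  have main : ∀ z ∈ Q', ∀ v ∈ Q', 0 < o p s a z → o p s a v < 0 → X p z v s a →
      0 < cr r (p a) (p s) := by
    intro z hz v hv n1 n2 hX
    have l1 := aff_four hgg s a z v
    have l2 := aff_four hff s a z v
    simp only [cr_self] at l1 l2
    have q1 := mul_pos n1 (hgQ v hv)
    have q2 := mul_neg_of_neg_of_pos n2 (hgQ z hz)
    have q3 := mul_pos n1 (hr v hv)
    have q4 := mul_neg_of_neg_of_pos n2 (hr z hz)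
    have m1 : o p z v s < 0 := by
      by_contra h
      have := mul_nonneg (not_lt.1 h) hga.le
      linarith
    have m2 : 0 < o p z v a := by
      by_contra h
      have := mul_nonneg_of_nonpos_of_nonpos m1.le (not_lt.1 h)
      linarith [hX.1]
    by_contra h
    have := mul_nonpos_of_nonneg_of_nonpos m2.le (not_lt.1 h)
    linarith
  have hboth : 0 < cr r (p a) (p s) ∧ (∃ u ∈ Q', 0 < o p s a u) ∧ (∃ w ∈ Q', o p s a w < 0) := by
    rcases mul_neg_iff.1 hX.2 with ⟨n1, n2⟩ | ⟨n1, n2⟩
    · exact ⟨main z hz' v hv' n1 n2 hX, ⟨z, hz', n1⟩, ⟨v, hv', n2⟩⟩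
    · exact ⟨main v hv' z hz' n2 n1 (X_sw1.1 hX), ⟨v, hv', n2⟩, ⟨z, hz', n1⟩⟩
  obtain ⟨hfs, ⟨u, hu, hu0⟩, ⟨w, hw, hw0⟩⟩ := hboth
  rcases lt_or_gt_of_ne (hgp.ne s a x hsa hxa.symm hsx) with hD | hD
  · -- mirror image
    have hgp' := GP_mir hgp
    have h3 := star_pos hgp' hsx hsa hxa hsQ hxQ han (aff_mir hff) (aff_mir hgg) (cr_self _ _) hfs
      hfx hr (cr_self _ _) hgx hga hgQ (fun c d hcd hX' => h1 c d hcd (X_mir.1 hX'))
      (fun c d hcd hX' => h2 c d hcd (X_mir.1 hX')) (by rw [o_mir]; linarith) hu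
      (by rw [o_mir]; linarith)
    apply hx
    refine ⟨((p a).1 - (p s).1, (p a).2 - (p s).2), fun t ht => ?_⟩
    have h4 : cr ((p a).1 - (p s).1, (p a).2 - (p s).2) (p x) (p t) = o p s a t - o p s a x := by
      unfold cr o; ring
    rw [h4]
    rcases List.mem_cons.1 ht with rfl | ht
    · have : o p s t t = 0 := by unfold o; ring
      rw [this]; linarith
    · have h5 := h3 t ht
      rw [o_mir, o_mir] at h5
      linarith
  · have h3 := star_pos hgp hsx hsa hxa hsQ hxQ han hff hgg (cr_self _ _) hfs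
      hfx hr (cr_self _ _) hgx hga hgQ h1 h2 hD hw hw0
    apply hx
    refine ⟨(-((p a).1 - (p s).1), -((p a).2 - (p s).2)), fun t ht => ?_⟩
    have h4 : cr (-((p a).1 - (p s).1), -((p a).2 - (p s).2)) (p x) (p t) =
        o p s a x - o p s a t := by
      unfold cr o; ring
    rw [h4]
    rcases List.mem_cons.1 ht with rfl | ht
    · have : o p s t t = 0 := by unfold o; ring
      rw [this]; linarith
    · have h5 := h3 t ht
      linarith

end FPW.Dsm
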