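import Pool.Agent.Lib.MP_deef39_co_Dsm.One

/-! # A vertex attached to the first vertex of a separated plane path -/

set_option autoImplicit false

namespace FPW.Dsm

open FPW

variable {α : Type*} {p : α → ℝ × ℝ}

theorem ang_exists [Finite α] (hgp : GP p) {x : α} {B : List α} (hne : B ≠ []) (hx : x ∉ B)
    (hsp : Sp p x B) {σ : ℝ} (hσ : σ ≠ 0) : ∃ e ∈ B, ∀ t ∈ B, t ≠ e → σ * o p x e t < 0 := by
  obtain ⟨r, hr⟩ := hsp
  obtain ⟨b, hb⟩ := List.exists_mem_of_ne_nil _ hne
  obtain ⟨e, he, hmin⟩ := Set.exists_min_image {t | t ∈ B}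
    (fun t => σ * ((r.1 * ((p t).1 - (p x).1) + r.2 * ((p t).2 - (p x).2)) /
      cr r (p x) (p t))) (Set.toFinite _) ⟨b, hb⟩
  have he' : e ∈ B := he
  refine ⟨e, he', fun t ht hte => ?_⟩
  have hFe := hr e he'
  have hFt := hr t ht
  have h1 := hmin t ht
  rw [mul_div_assoc', mul_div_assoc', div_le_div_iff₀ hFe hFt] at h1
  have h2 : σ * (r.1 * ((p t).1 - (p x).1) + r.2 * ((p t).2 - (p x).2)) * cr r (p x) (p e) -
      σ * (r.1 * ((p e).1 - (p x).1) + r.2 * ((p e).2 - (p x).2)) * cr r (p x) (p t) =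
      -((r.1 * r.1 + r.2 * r.2) * (σ * o p x e t)) := by
    unfold cr o; ring
  have h3 : 0 < r.1 * r.1 + r.2 * r.2 := by
    by_contra h4
    have h5 : r.1 = 0 := by nlinarith [mul_self_nonneg r.1, mul_self_nonneg r.2]
    have h6 : r.2 = 0 := by nlinarith [mul_self_nonneg r.1, mul_self_nonneg r.2]
    unfold cr at hFe
    rw [h5, h6] at hFe
    linarith
  have h7 : (r.1 * r.1 + r.2 * r.2) * (σ * o p x e t) ≤ 0 := by linarith
  have h8 : σ * o p x e t ≤ 0 := by
    by_contra h9
    have := mul_pos h3 (not_le.1 h9)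
    linarith
  refine lt_of_le_of_ne h8 (mul_ne_zero hσ (hgp.ne x e t (fun h => hx (h ▸ he'))
    (fun h => hte h.symm) (fun h => hx (h ▸ ht))))

theorem split_sp {x : α} : ∀ L : List α, ¬ Sp p x L →
    ∃ W b B, L = W ++ b :: B ∧ ¬ Sp p x (b :: B) ∧ Sp p x B
  | [], h => absurd ⟨(0, 0), fun _ ht => absurd ht List.not_mem_nil⟩ h
  | b :: L, h => by
    by_cases h1 : Sp p x L
    · exact ⟨[], b, L, rfl, h, h1⟩
    · obtain ⟨W, b', B, h2, h3, h4⟩ := split_sp L h1
      exact ⟨b :: W, b', B, by rw [h2]; rfl, h3, h4⟩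

theorem fr_tail {x : α} {l : List α} (h : Fr p (x :: l)) : Fr p l := by
  cases l with
  | nil => exact trivial
  | cons y L => exact h.2.2

theorem fr_suffix : ∀ (W : List α) {L : List α}, Fr p (W ++ L) → Fr p L
  | [], _, h => h
  | _ :: W, _, h => fr_suffix W (fr_tail h)

theorem pre_free {c : α} {B' : List α} : ∀ (W : List α), Fr p (W ++ c :: B') →
    ∀ s t, Ed (W ++ [c]) s t → ∀ z ∈ c :: B', ∀ v ∈ c :: B', ¬ X p z v s t
  | [], _, _, _, h, _, _, _, _ => h.elim
  | [w], hfr, s, t, h, z, hz, v, hv => by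
    have h1 := fr_free hfr.1 z hz v hv
    rcases ed_cons2.1 h with ⟨rfl, rfl⟩ | ⟨rfl, rfl⟩ | h
    · exact h1
    · exact fun hX => h1 (X_sw2.1 hX)
    · exact h.elim
  | w :: w' :: W, hfr, s, t, h, z, hz, v, hv => by
    have h1 := hfr.1 z (List.mem_append_right _ hz) v (List.mem_append_right _ hv)
    rcases ed_cons2.1 h with ⟨rfl, rfl⟩ | ⟨rfl, rfl⟩ | h
    · exact h1
    · exact fun hX => h1 (X_sw2.1 hX)
    · exact pre_free (w' :: W) hfr.2.2 s t h z hz v hv

theorem pre_hull_one (hgp : GP p) {x w y : α} {C K : List α} (hn : (w :: y :: C).Nodup)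
    (hx : x ∉ w :: y :: C) (hfr : Fr p (w :: y :: C)) (hs : SI p (w :: y :: C))
    (hsp : ¬ Sp p x K) (hK : ∀ t ∈ K, t ∈ y :: C) {e : α} (he : e ∈ C) : ¬ X p x e w y := by
  obtain ⟨r, hr, hrw⟩ := sep_line hgp hn hfr.1 hs.2.1 hs.1
  have hx' : x ∉ y :: C := fun h => hx (List.mem_cons_of_mem _ h)
  have h0 : 0 < cr r (p y) (p x) := by
    refine pos_of_not_sp hgp (L := y :: C) (fun h => hsp (sp_perm hK h)) hx' ?_ (w := e)
      (hr e he).ne'
    intro t ht
    rcases List.mem_cons.1 ht with rfl | ht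
    · rw [cr_self]
    · exact (hr t ht).le
  intro hX
  obtain ⟨_, _, h1, _⟩ := sepX (aff_cr r (p y)) (X_comm.1 hX) hrw (by rw [cr_self]) h0.le
    (hr e he).le
  exact h0.ne' h1

theorem pre_hull (hgp : GP p) {x b : α} {K : List α} : ∀ (W : List α), (W ++ b :: K).Nodup →
    x ∉ W ++ b :: K → Fr p (W ++ b :: K) → SI p (W ++ b :: K) → ¬ Sp p x (b :: K) →
    ∀ e ∈ K, ∀ s t, Ed (W ++ [b]) s t → ¬ X p x e s t
  | [], _, _, _, _, _, _, _, _, _, h => h.elim
  | [w], hn, hx, hfr, hs, hsp, e, he, s, t, h => by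
    have h1 := pre_hull_one hgp hn hx hfr hs hsp (fun _ ht => ht) he
    rcases ed_cons2.1 h with ⟨rfl, rfl⟩ | ⟨rfl, rfl⟩ | h
    · exact h1
    · exact fun hX => h1 (X_sw2.1 hX)
    · exact h.elim
  | w :: w' :: W, hn, hx, hfr, hs, hsp, e, he, s, t, h => by
    have h1 := pre_hull_one hgp (C := W ++ b :: K) hn hx hfr hs hsp
      (fun t ht => List.mem_cons_of_mem _ (List.mem_append_right _ ht))
      (List.mem_append_right _ (List.mem_cons_of_mem _ he))
    rcases ed_cons2.1 h with ⟨rfl, rfl⟩ | ⟨rfl, rfl⟩ | h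
    · exact h1
    · exact fun hX => h1 (X_sw2.1 hX)
    · exact pre_hull hgp (w' :: W) (List.nodup_cons.1 hn).2
        (fun h' => hx (List.mem_cons_of_mem _ h')) hfr.2.2 hs.2 hsp e he s t h

theorem si_replace {L L' : List α} (hm : ∀ t ∈ L', t ∈ L) (hs' : SI p L') :
    ∀ V : List α, SI p (V ++ L) → SI p (V ++ L')
  | [], _ => hs'
  | v :: V, h => ⟨sp_perm (fun t ht => by
      rcases List.mem_append.1 ht with ht | ht
      · exact List.mem_append_left _ ht
      · exact List.mem_append_right _ (hm t ht)) h.1, si_replace hm hs' V h.2⟩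

/-- rotation of the end `y` at the head `s`, edges version -/
theorem rot_head' {s y : α} {m : List α}
    (hf : ∀ c d, Ed (m ++ [y]) c d → ¬ X p s y c d) :
    Rot p NO (s :: (m ++ [y])) (s :: y :: m.reverse) := by
  refine ⟨s, y, ⟨[], m, rfl, rfl⟩, ?_⟩
  intro c d hcd hX
  have hcd' := eo_no.1 hcd
  cases m with
  | nil =>
    rcases hcd' with ⟨rfl, rfl⟩ | ⟨rfl, rfl⟩ | h
    · exact not_X_of_eq3 hX
    · exact not_X_of_eq4 hX
    · exact h.elim
  | cons b m =>
    rcases hcd' with ⟨rfl, rfl⟩ | ⟨rfl, rfl⟩ | h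
    · exact not_X_of_eq3 hX
    · exact not_X_of_eq4 hX
    · exact hf c d h (X_sw1.1 hX)

theorem sp_single (hgp : GP p) {x a : α} (h : x ≠ a) : Sp p x [a] :=
  ⟨_, fun t ht => by
    rw [List.mem_singleton.1 ht]
    exact cr_dot_pos (fun h' => h (hgp.inj h'))⟩

theorem aff_o (a b : α) (σ : ℝ) : Aff p (fun t => -(σ * o p a b t)) :=
  ⟨σ * ((p b).2 - (p a).2), -(σ * ((p b).1 - (p a).1)),
    σ * (((p b).1 - (p a).1) * (p a).2 - ((p b).2 - (p a).2) * (p a).1), fun t => by
      unfold o; ring⟩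

theorem ins_head_si [Finite α] (hgp : GP p) {x : α} {Q : List α} (hn : (x :: Q).Nodup)
    (hp : Plane p (Ed (x :: Q))) (hs : SI p Q) : ∃ q : List α, q.Perm (x :: Q) ∧
      Plane p (Ed q) ∧ SI p q ∧ Relation.ReflTransGen (U p) (x :: Q) q := by
  by_cases h0 : Sp p x Q
  · exact ⟨_, List.Perm.refl _, hp, ⟨h0, hs⟩, Relation.ReflTransGen.refl⟩
  cases Q with
  | nil => exact absurd ⟨(0, 0), fun _ ht => absurd ht List.not_mem_nil⟩ h0
  | cons a Q' =>
  have hxn := (List.nodup_cons.1 hn).1
  have hnQ := (List.nodup_cons.1 hn).2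
  have hxa : x ≠ a := fun h => hxn (by rw [h]; exact List.mem_cons_self)
  have hplQ := plane_tail hp
  have hfrQ : Fr p (a :: Q') := fr_of_si hgp _ hnQ hplQ hs
  have hpe : ∀ c d, Ed Q' c d → ¬ X p c d a x := by
    intro c d hcd hX
    refine hp c d a x ?_ (ed_cons2.2 (Or.inr (Or.inl ⟨rfl, rfl⟩))) hX
    refine ed_cons2.2 (Or.inr (Or.inr ?_))
    cases Q' with
    | nil => exact hcd.elim
    | cons y L => exact ed_cons2.2 (Or.inr (Or.inr hcd))
  have hna : a ∉ Q' := (List.nodup_cons.1 hnQ).1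
  have hxQ' : x ∉ Q' := fun h => hxn (List.mem_cons_of_mem _ h)
  by_cases h1 : Sp p x Q'
  · cases Q' with
    | nil => exact absurd (sp_single hgp hxa) h0
    | cons b K =>
    obtain ⟨r, hr⟩ := hs.1
    have hrx : 0 < cr r (p a) (p x) := by
      refine pos_of_not_sp hgp h0 hxn ?_ (w := b) (hr b List.mem_cons_self).ne'
      intro t ht
      rcases List.mem_cons.1 ht with rfl | ht
      · rw [cr_self]
      · exact (hr t ht).le
    have hnn : (a :: x :: b :: K).Nodup := by
      refine List.nodup_cons.2 ⟨fun h => ?_, List.nodup_cons.2 ⟨hxQ', (List.nodup_cons.1 hnQ).2⟩⟩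
      rcases List.mem_cons.1 h with h | h
      · exact hxa h.symm
      · exact hna h
    have hf : ∀ z ∈ b :: K, ∀ v ∈ b :: K, ¬ X p z v x a := by
      intro z hz v hv hX
      refine free' hgp hnn hpe h1 ⟨r, fun t ht => ?_⟩ hz hv (X_sw2.1 hX)
      rcases List.mem_cons.1 ht with rfl | ht
      · exact hrx
      · exact hr t ht
    exact first hgp hn ⟨hf, hs.1, hfrQ⟩
  · obtain ⟨W', b, B, rfl, h2, h3⟩ := split_sp Q' h1
    cases B with
    | nil =>
      exact absurd (sp_single hgp (fun h => hxQ' (by rw [h]; simp))) h2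
    | cons c B' =>
    have hassoc : a :: (W' ++ b :: c :: B') = (a :: W') ++ b :: c :: B' := rfl
    have hassoc2 : a :: (W' ++ b :: c :: B') = (a :: (W' ++ [b])) ++ c :: B' := by simp
    rw [hassoc] at hfrQ hs hnQ
    have hfrQ2 : Fr p ((a :: (W' ++ [b])) ++ c :: B') := by rw [← hassoc2]; exact hfrQ
    have hsB : SI p (b :: c :: B') := si_sublist (List.sublist_append_right _ _) hs
    have hfrB : Fr p (b :: c :: B') := fr_suffix _ hfrQ
    have hnB : (b :: c :: B').Nodup := (List.nodup_append.1 hnQ).2.1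
    have hxB : x ∉ b :: c :: B' := fun h => hxQ' (List.mem_append_right _ h)
    have hbx : b ≠ x := fun h => hxB (by rw [h]; exact List.mem_cons_self)
    have hcx : c ≠ x := fun h => hxB (by rw [h]; simp)
    have hbc : b ≠ c := fun h => (List.nodup_cons.1 hnB).1 (by rw [h]; exact List.mem_cons_self)
    have hxB' : x ∉ c :: B' := fun h => hxB (List.mem_cons_of_mem _ h)
    -- the edge `x a` is free
    obtain ⟨r, hr⟩ := hs.1
    have hrx : 0 < cr r (p a) (p x) := by
      refine pos_of_not_sp hgp h1 hxQ' (fun t ht => (hr t ht).le) (w := b)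
        (hr b (by simp)).ne'
    have hsubB : ∀ t ∈ c :: B', t ∈ W' ++ b :: c :: B' := fun t ht =>
      List.mem_append_right _ (List.mem_cons_of_mem _ ht)
    have hfxa : ∀ z ∈ c :: B', ∀ v ∈ c :: B', ¬ X p z v x a := by
      intro z hz v hv hX
      refine free' hgp (s := a) (a := x) (C := c :: B') ?_ ?_ h3 ⟨r, fun t ht => ?_⟩ hz hv
        (X_sw2.1 hX)
      · refine List.nodup_cons.2 ⟨fun h => ?_, List.nodup_cons.2 ⟨hxB',
          (List.nodup_cons.1 hnB).2⟩⟩
        rcases List.mem_cons.1 h with h | h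
        · exact hxa h.symm
        · exact hna (hsubB a h)
      · intro s t hst
        refine hpe s t ?_
        have h4 : W' ++ b :: c :: B' = (W' ++ [b]) ++ c :: B' := by simp
        rw [h4]
        exact ed_mid.2 (Or.inr hst)
      · rcases List.mem_cons.1 ht with rfl | ht
        · exact hrx
        · exact hr t (hsubB t ht)
    -- the new end `e`
    set σ : ℝ := o p b c x with hσd
    have hσ : σ ≠ 0 := hgp.ne b c x hbc hcx hbx
    obtain ⟨e, he, hext⟩ := ang_exists hgp (List.cons_ne_nil c B') hxB' h3 hσ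
    have hσσ : 0 < σ * σ := mul_self_pos.2 hσ
    have hec : c ≠ e := by
      intro hce
      rw [← hce] at hext
      apply h2
      have hFb : -(σ * o p x c b) = σ * σ := by
        rw [hσd]; unfold o; ring
      refine sp_of_aff hgp (F := fun t => -(σ * o p x c t)) (aff_o x c σ) ?_ hxB ?_ (w := b) ?_
      · show -(σ * o p x c x) = 0
        unfold o; ring
      · intro t ht
        show 0 ≤ -(σ * o p x c t)
        rcases List.mem_cons.1 ht with rfl | ht
        · rw [hFb]; exact hσσ.le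
        · by_cases htc : t = c
          · rw [htc]
            have : o p x c c = 0 := by unfold o; ring
            rw [this]; simp
          · linarith [hext t ht htc]
      · show -(σ * o p x c b) ≠ 0
        rw [hFb]; exact hσσ.ne'
    have hexc : σ * o p x e c < 0 := hext c List.mem_cons_self hec
    obtain ⟨rc, hrc⟩ := hsB.2.1
    have hcre : ∀ t, cr (-(σ * ((p e).1 - (p x).1)), -(σ * ((p e).2 - (p x).2))) (p e) (p t) =
        -(σ * o p x e t) := by
      intro t; unfold cr o; ring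
    obtain ⟨M, m1, m2, m3, _⟩ := sort2 hgp (List.nodup_cons.1 hnB).2 (a := c) (a' := e)
      List.mem_cons_self he hec (r := rc)
      (r' := (-(σ * ((p e).1 - (p x).1)), -(σ * ((p e).2 - (p x).2))))
      (fun t ht htc => hrc t ((List.mem_cons.1 ht).resolve_left htc))
      (fun t ht hte => by rw [hcre]; linarith [hext t ht hte])
    have mpl : Plane p (Ed (c :: (M ++ [e]))) := m2 _ (List.Sublist.refl _)
    have s1 : Reach p NO (c :: B') (c :: (M ++ [e])) :=
      kkr hgp _ c B' (M ++ [e]) rfl (List.nodup_cons.1 hnB).2 ((List.perm_cons c).1 m1)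
        (plane_of_fr _ hfrB.2.2) mpl hsB.2 m3
    have s2 : Reach p NO ((x :: a :: (W' ++ [b])) ++ c :: B')
        ((x :: a :: (W' ++ [b])) ++ c :: (M ++ [e])) := by
      refine reach_pre ?_ s1
      intro s t hst z hz v hv
      rcases ed_cons2.1 hst with ⟨rfl, rfl⟩ | ⟨rfl, rfl⟩ | hst
      · exact hfxa z hz v hv
      · exact fun hX => hfxa z hz v hv (X_sw2.1 hX)
      · exact pre_free (a :: (W' ++ [b])) hfrQ2 s t hst z hz v hv
    have s3 : Rot p NO (x :: ((a :: (W' ++ [b]) ++ c :: M) ++ [e]))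
        (x :: e :: (a :: (W' ++ [b]) ++ c :: M).reverse) := by
      refine rot_head' ?_
      intro s t hst hX
      have h5 : (a :: (W' ++ [b]) ++ c :: M) ++ [e] = (a :: (W' ++ [b])) ++ c :: (M ++ [e]) := by
        simp
      rw [h5] at hst
      rcases ed_mid.1 hst with hst | hst
      · have h6 : (a :: (W' ++ [b])) ++ [c] = (a :: W') ++ [b, c] := by simp
        rw [h6, ed_snoc2] at hst
        have hbar : ¬ X p x e b c := by
          intro hX'
          obtain ⟨n1, n2⟩ := hX'
          have n3 : 0 < σ * o p x e b := by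
            by_contra h7
            have h8 := mul_nonneg_of_nonpos_of_nonpos (not_lt.1 h7) hexc.le
            have h9 : (σ * o p x e b) * (σ * o p x e c) = (σ * σ) * (o p x e b * o p x e c) := by
              ring
            rw [h9] at h8
            have h10 := mul_neg_of_pos_of_neg hσσ n1
            linarith
          have n4 : σ * o p b c e = σ * σ + -(σ * o p x e c) + σ * o p x e b := by
            rw [hσd]; unfold o; ring
          have n5 : o p b c x * o p b c e = σ * o p b c e := rfl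
          rw [n5, n4] at n2
          linarith
        rcases hst with hst | ⟨rfl, rfl⟩ | ⟨rfl, rfl⟩
        · exact pre_hull hgp (a :: W') hnQ (fun h => hxn h) hfrQ hs h2 e he s t hst hX
        · exact hbar hX
        · exact hbar (X_sw2.1 hX)
      · have hge : ∀ t ∈ c :: B', 0 ≤ -(σ * o p x e t) := by
          intro t ht
          by_cases hte : t = e
          · rw [hte]
            have : o p x e e = 0 := by unfold o; ring
            rw [this]; simp
          · linarith [hext t ht hte]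
        have hsm : s ∈ c :: B' := m1.mem_iff.1 (ed_mem hst)
        have htm : t ∈ c :: B' := m1.mem_iff.1 (ed_mem' hst)
        obtain ⟨_, _, n3, n4⟩ := sepX (aff_o x e σ) hX
          (by show -(σ * o p x e x) ≤ 0; unfold o; ring_nf; exact le_rfl)
          (by show -(σ * o p x e e) ≤ 0; unfold o; ring_nf; exact le_rfl)
          (hge s hsm) (hge t htm)
        have hz : ∀ t ∈ c :: B', -(σ * o p x e t) = 0 → t = e := by
          intro t ht h7
          by_contra hte
          linarith [hext t ht hte]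
        exact (X_ne hX).2.1 ((hz s hsm n3).trans (hz t htm n4).symm)
    -- assemble
    have e1 : x :: a :: (W' ++ b :: c :: B') = (x :: a :: (W' ++ [b])) ++ c :: B' := by simp
    have e2 : (x :: a :: (W' ++ [b])) ++ c :: (M ++ [e]) =
        x :: ((a :: (W' ++ [b]) ++ c :: M) ++ [e]) := by simp
    have e3 : (x :: e :: (a :: (W' ++ [b]) ++ c :: M).reverse).reverse =
        ((a :: (W' ++ [b])) ++ c :: (M ++ [e])) ++ [x] := by simp
    have s4 : Relation.ReflTransGen (U p) (x :: a :: (W' ++ b :: c :: B'))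
        (((a :: (W' ++ [b])) ++ c :: (M ++ [e])) ++ [x]) := by
      rw [e1]
      refine ((reach_u s2).tail ?_).tail (Or.inr e3.symm)
      rw [e2]
      exact Or.inl s3
    have hpl4 := u_plane hp s4
    have hpm4 := u_perm s4
    have hn4 := hpm4.symm.nodup hn
    have hsi4 : SI p ((a :: (W' ++ [b])) ++ c :: (M ++ [e])) :=
      si_replace (L := c :: B') (fun t ht => m1.mem_iff.1 ht) m3 _ (by
        rw [← hassoc2]; exact hs)
    obtain ⟨ρ, k1, k2, k3, _⟩ := ins_last_si hgp _ hn4 hpl4 hsi4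
    exact ⟨ρ, (dis_perm k3).symm.trans hpm4, plane_of_fr _ k1, k2, s4.trans (u_dis k1 k3)⟩

end FPW.Dsm
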